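import Pool.Agent.J6H10.GI.Stm

/-! # Project GI: first facts on `Conv` and `Wgt` -/

set_option autoImplicit false

open MeasureTheory Set Filter Topology

namespace Pool.Agent.J6H10.GI

/-- in the limits of `Conv` the height is large and `δ` is small -/
theorem Conv_small {a : ℝ} (ha : 0 < a) (N : ℝ) : ∃ η T₀ : ℝ, 0 < η ∧
    ∀ δ T : ℝ, T₀ ≤ T → |δ * Real.log T - a| < η → N ≤ T ∧ 3 ≤ T ∧ 0 < δ ∧ δ * N ≤ 1 ∧ δ ≤ 1 := by
  refine ⟨a / 2, max (max N 3) (Real.exp (3 * a / 2 * max 1 N)), by positivity, fun δ T hT h => ?_⟩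
  have h1 : N ≤ T := (le_max_left _ _).trans ((le_max_left _ _).trans hT)
  have h2 : 3 ≤ T := (le_max_right _ _).trans ((le_max_left _ _).trans hT)
  have h3 : Real.exp (3 * a / 2 * max 1 N) ≤ T := (le_max_right _ _).trans hT
  have h4 : 3 * a / 2 * max 1 N ≤ Real.log T := by
    rw [Real.le_log_iff_exp_le (by linarith)]
    exact h3
  have hm : 1 ≤ max 1 N := le_max_left _ _
  have hl : 0 < Real.log T := lt_of_lt_of_le (by positivity) h4
  rw [abs_lt] at h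
  have h5 : 0 < δ * Real.log T := by linarith [h.1]
  have hδ : 0 < δ := by
    by_contra hc
    push Not at hc
    nlinarith
  have h6 : δ * (3 * a / 2 * max 1 N) ≤ δ * Real.log T := mul_le_mul_of_nonneg_left h4 hδ.le
  have h7 : δ * (3 * a / 2 * max 1 N) ≤ 3 * a / 2 := by linarith [h.2]
  have h8 : δ * max 1 N ≤ 1 := by
    by_contra hc
    push Not at hc
    nlinarith
  refine ⟨h1, h2, hδ, ?_, ?_⟩
  · exact (mul_le_mul_of_nonneg_left (le_max_right 1 N) hδ.le).trans h8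
  · calc δ = δ * 1 := (mul_one _).symm
      _ ≤ δ * max 1 N := mul_le_mul_of_nonneg_left hm hδ.le
      _ ≤ 1 := h8

/-- the limits of `Conv` are uniform for `M⁻¹ T ≤ T' ≤ M T` -/
theorem Conv_scale {F : ℝ → ℝ → ℝ} {γ : ℝ} (h : Conv F γ) {M : ℝ} (hM : 1 ≤ M) {a : ℝ} (ha : 0 < a) {ε : ℝ}
    (hε : 0 < ε) : ∃ η T₀ : ℝ, 0 < η ∧ ∀ δ T x : ℝ, T₀ ≤ T → |δ * Real.log T - a| < η → M⁻¹ ≤ x → x ≤ M →
      |F δ (x * T) - γ| ≤ ε := by
  obtain ⟨η₁, T₁, hη₁, h1⟩ := h a ha ε hε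
  obtain ⟨η₂, T₂, hη₂, h2⟩ := Conv_small ha (2 * (Real.log M + 1) / η₁)
  have hM0 : 0 < M := by linarith
  have hlM : 0 ≤ Real.log M := Real.log_nonneg hM
  refine ⟨min (η₁ / 2) η₂, max (max (M * T₁) (M * 3)) T₂, lt_min (by positivity) hη₂, fun δ T x hT hδ hx1 hx2 => ?_⟩
  have a1 : T₂ ≤ T := (le_max_right _ _).trans hT
  have a2 : M * T₁ ≤ T := (le_max_left _ _).trans ((le_max_left _ _).trans hT)
  have a3 : M * 3 ≤ T := (le_max_right _ _).trans ((le_max_left _ _).trans hT)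
  obtain ⟨-, hT3, hδ0, hδN, -⟩ := h2 δ T a1 (lt_of_lt_of_le hδ (min_le_right _ _))
  have hx0 : 0 < x := lt_of_lt_of_le (by positivity) hx1
  have hT0 : 0 < T := by linarith
  apply h1
  · calc T₁ = M⁻¹ * (M * T₁) := by field_simp
      _ ≤ M⁻¹ * T := mul_le_mul_of_nonneg_left a2 (by positivity)
      _ ≤ x * T := mul_le_mul_of_nonneg_right hx1 hT0.le
  · rw [Real.log_mul hx0.ne' hT0.ne']
    have b1 : |Real.log x| ≤ Real.log M := by
      rw [abs_le]
      constructor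
      · rw [← Real.log_inv]
        exact Real.log_le_log (by positivity) hx1
      · exact Real.log_le_log hx0 hx2
    have b2 : |δ * Real.log x| ≤ η₁ / 2 := by
      rw [abs_mul, abs_of_pos hδ0]
      have b3 : δ * |Real.log x| ≤ δ * (Real.log M + 1) := mul_le_mul_of_nonneg_left (by linarith) hδ0.le
      have b4 : δ * (2 * (Real.log M + 1) / η₁) = 2 * (δ * (Real.log M + 1)) / η₁ := by ring
      rw [b4, div_le_one hη₁] at hδN
      linarith
    have b5 : |δ * Real.log T - a| < η₁ / 2 := lt_of_lt_of_le hδ (min_le_left _ _)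
    calc |δ * (Real.log x + Real.log T) - a| = |δ * Real.log x + (δ * Real.log T - a)| := by ring_nf
      _ ≤ |δ * Real.log x| + |δ * Real.log T - a| := abs_add_le _ _
      _ < η₁ := by linarith

/-- stability under small perturbations -/
theorem Conv_congr {F G : ℝ → ℝ → ℝ} {γ : ℝ} (h : Conv F γ)
    (hFG : ∀ a : ℝ, 0 < a → ∀ ε : ℝ, 0 < ε → ∃ η T₀ : ℝ, 0 < η ∧
      ∀ δ T : ℝ, T₀ ≤ T → |δ * Real.log T - a| < η → |G δ T - F δ T| ≤ ε) : Conv G γ := by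
  intro a ha ε hε
  obtain ⟨η₁, T₁, hη₁, h1⟩ := h a ha (ε / 2) (by positivity)
  obtain ⟨η₂, T₂, hη₂, h2⟩ := hFG a ha (ε / 2) (by positivity)
  refine ⟨min η₁ η₂, max T₁ T₂, lt_min hη₁ hη₂, fun δ T hT hδ => ?_⟩
  have e1 := h1 δ T ((le_max_left _ _).trans hT) (lt_of_lt_of_le hδ (min_le_left _ _))
  have e2 := h2 δ T ((le_max_right _ _).trans hT) (lt_of_lt_of_le hδ (min_le_right _ _))
  calc |G δ T - γ| = |(G δ T - F δ T) + (F δ T - γ)| := by ring_nf
    _ ≤ |G δ T - F δ T| + |F δ T - γ| := abs_add_le _ _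
    _ ≤ ε := by linarith

section
variable {W : ℝ → ℝ → ℝ} {C : ℝ}

theorem Wgt.C_nonneg (h : Wgt W C) : 0 ≤ C := by
  have h1 := h.bound 1 1 one_pos le_rfl le_rfl
  have h2 : 0 ≤ ∫ t in (0 : ℝ)..1, W 1 t := intervalIntegral.integral_nonneg zero_le_one fun t _ => h.nonneg 1 t
  linarith

theorem Wgt.cont2 (h : Wgt W C) {δ : ℝ} (hδ : 0 < δ) (hδ1 : δ ≤ 1) {a b : ℝ} (ha : 0 < a) (hab : a ≤ b) :
    IntervalIntegrable (fun t => W δ t / t ^ 2) volume a b := by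
  apply ContinuousOn.intervalIntegrable
  rw [uIcc_of_le hab]
  refine (h.cont δ hδ hδ1).continuousOn.div (by fun_prop) fun t ht => ?_
  have : 0 < t := lt_of_lt_of_le ha ht.1
  positivity

theorem Wgt.dyadic (h : Wgt W C) {δ : ℝ} (hδ : 0 < δ) (hδ1 : δ ≤ 1) {R : ℝ} (hR : 1 ≤ R) (n : ℕ) :
    ∫ t in R..(2 ^ n * R), W δ t / t ^ 2 ≤ 4 * C / R * (1 - (2 ^ n)⁻¹) := by
  have hR0 : 0 < R := by linarith
  have hC := h.C_nonneg
  induction n with
  | zero => simp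
  | succ n ih =>
    have hn : (1 : ℝ) ≤ 2 ^ n := one_le_pow₀ (by norm_num)
    have h0 : 0 < 2 ^ n * R := by positivity
    have h1 : R ≤ 2 ^ n * R := by nlinarith
    have h2 : 2 ^ n * R ≤ 2 ^ (n + 1) * R := by
      rw [pow_succ]
      nlinarith
    have hW := (h.cont δ hδ hδ1)
    rw [← intervalIntegral.integral_add_adjacent_intervals (h.cont2 hδ hδ1 hR0 h1) (h.cont2 hδ hδ1 h0 h2)]
    have h3 : ∫ t in (2 ^ n * R)..(2 ^ (n + 1) * R), W δ t / t ^ 2 ≤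
        ∫ t in (2 ^ n * R)..(2 ^ (n + 1) * R), W δ t * ((2 ^ n * R) ^ 2)⁻¹ := by
      refine intervalIntegral.integral_mono_on h2 (h.cont2 hδ hδ1 h0 h2)
        ((hW.mul continuous_const).intervalIntegrable _ _) fun t ht => ?_
      rw [div_eq_mul_inv]
      refine mul_le_mul_of_nonneg_left ?_ (h.nonneg δ t)
      exact inv_anti₀ (by positivity) (pow_le_pow_left₀ h0.le ht.1 2)
    have h4 : ∫ t in (2 ^ n * R)..(2 ^ (n + 1) * R), W δ t ≤ C * (2 ^ (n + 1) * R) := by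
      have e1 := h.bound δ (2 ^ (n + 1) * R) hδ hδ1 (by nlinarith)
      have e2 : (∫ t in (0 : ℝ)..(2 ^ n * R), W δ t) + ∫ t in (2 ^ n * R)..(2 ^ (n + 1) * R), W δ t =
          ∫ t in (0 : ℝ)..(2 ^ (n + 1) * R), W δ t :=
        intervalIntegral.integral_add_adjacent_intervals (hW.intervalIntegrable _ _) (hW.intervalIntegrable _ _)
      have e3 : 0 ≤ ∫ t in (0 : ℝ)..(2 ^ n * R), W δ t :=
        intervalIntegral.integral_nonneg h0.le fun t _ => h.nonneg δ t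
      linarith
    rw [intervalIntegral.integral_mul_const] at h3
    have h5 : (∫ t in (2 ^ n * R)..(2 ^ (n + 1) * R), W δ t) * ((2 ^ n * R) ^ 2)⁻¹ ≤
        C * (2 ^ (n + 1) * R) * ((2 ^ n * R) ^ 2)⁻¹ := mul_le_mul_of_nonneg_right h4 (by positivity)
    have h6 : C * (2 ^ (n + 1) * R) * ((2 ^ n * R) ^ 2)⁻¹ = 4 * C / R * ((2 ^ n)⁻¹ - (2 ^ (n + 1))⁻¹) := by
      rw [pow_succ]
      field_simp
      ring
    nlinarith

theorem tendsto_dy {R : ℝ} (hR : 0 < R) : Tendsto (fun n : ℕ => (2 : ℝ) ^ n * R) atTop atTop :=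
  (tendsto_pow_atTop_atTop_of_one_lt (by norm_num)).atTop_mul_const hR

/-- the tail bound -/
theorem Wgt.tail (h : Wgt W C) {δ : ℝ} (hδ : 0 < δ) (hδ1 : δ ≤ 1) {R : ℝ} (hR : 1 ≤ R) :
    IntegrableOn (fun t => W δ t / t ^ 2) (Ioi R) ∧ ∫ t in Ioi R, W δ t / t ^ 2 ≤ 4 * C / R := by
  have hR0 : 0 < R := by linarith
  have hC := h.C_nonneg
  have hb : ∀ n : ℕ, ∫ t in R..(2 ^ n * R), W δ t / t ^ 2 ≤ 4 * C / R := fun n => by
    refine (h.dyadic hδ hδ1 hR n).trans ?_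
    have : (0 : ℝ) < (2 ^ n)⁻¹ := by positivity
    have h2 : 0 ≤ 4 * C / R := by positivity
    nlinarith
  have hle : ∀ n : ℕ, R ≤ 2 ^ n * R := fun n => by
    have hn : (1 : ℝ) ≤ 2 ^ n := one_le_pow₀ (by norm_num)
    nlinarith
  have hi : IntegrableOn (fun t => W δ t / t ^ 2) (Ioi R) := by
    refine integrableOn_Ioi_of_intervalIntegral_norm_bounded (4 * C / R) R (fun n => ?_) (tendsto_dy hR0)
      (Eventually.of_forall fun n => ?_)
    · have := h.cont2 hδ hδ1 hR0 (hle n)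
      rwa [intervalIntegrable_iff_integrableOn_Ioc_of_le (hle n)] at this
    · refine le_trans (le_of_eq ?_) (hb n)
      refine intervalIntegral.integral_congr fun t ht => ?_
      rw [uIcc_of_le (hle n)] at ht
      have : 0 ≤ W δ t / t ^ 2 := div_nonneg (h.nonneg δ t) (sq_nonneg t)
      simp only [Real.norm_eq_abs, abs_of_nonneg this]
  refine ⟨hi, ?_⟩
  exact le_of_tendsto' (intervalIntegral_tendsto_integral_Ioi R hi (tendsto_dy hR0)) hb

/-- the weighted integral over the half line -/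
theorem Wgt.full (h : Wgt W C) {δ : ℝ} (hδ : 0 < δ) (hδ1 : δ ≤ 1) {σ : ℝ} (hσ : 1 / 2 ≤ σ) :
    IntegrableOn (fun t => W δ t / (σ ^ 2 + t ^ 2)) (Ioi 0) ∧
      0 ≤ ∫ t in Ioi (0 : ℝ), W δ t / (σ ^ 2 + t ^ 2) ∧ ∫ t in Ioi (0 : ℝ), W δ t / (σ ^ 2 + t ^ 2) ≤ 8 * C := by
  have hC := h.C_nonneg
  have hW := h.cont δ hδ hδ1
  have hc : Continuous fun t : ℝ => W δ t / (σ ^ 2 + t ^ 2) := by
    refine hW.div (by fun_prop) fun t => ?_
    positivity
  have h0 : ∀ t, 0 ≤ W δ t / (σ ^ 2 + t ^ 2) := fun t => div_nonneg (h.nonneg δ t) (by positivity)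
  obtain ⟨t1, t2⟩ := h.tail hδ hδ1 le_rfl
  have i1 : IntegrableOn (fun t => W δ t / (σ ^ 2 + t ^ 2)) (Ioc 0 1) :=
    (hc.integrableOn_Icc).mono_set Ioc_subset_Icc_self
  have i2 : IntegrableOn (fun t => W δ t / (σ ^ 2 + t ^ 2)) (Ioi 1) := by
    refine Integrable.mono' t1 hc.aestronglyMeasurable ?_
    refine (ae_restrict_iff' measurableSet_Ioi).2 (Eventually.of_forall fun t ht => ?_)
    have ht0 : (0 : ℝ) < t := lt_trans one_pos ht
    rw [Real.norm_eq_abs, abs_of_nonneg (h0 t)]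
    refine div_le_div_of_nonneg_left (h.nonneg δ t) (by positivity) ?_
    nlinarith [sq_nonneg σ]
  have e : Ioi (0 : ℝ) = Ioc 0 1 ∪ Ioi 1 := (Ioc_union_Ioi_eq_Ioi zero_le_one).symm
  have hi : IntegrableOn (fun t => W δ t / (σ ^ 2 + t ^ 2)) (Ioi 0) := by
    rw [e]
    exact i1.union i2
  refine ⟨hi, setIntegral_nonneg measurableSet_Ioi fun t _ => h0 t, ?_⟩
  rw [e, setIntegral_union (by rw [Set.disjoint_left]; intro x hx hx'; exact absurd hx.2 (not_le.2 hx'))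
    measurableSet_Ioi i1 i2]
  have b1 : ∫ t in Ioc (0 : ℝ) 1, W δ t / (σ ^ 2 + t ^ 2) ≤ 4 * C := by
    have e1 := h.bound δ 1 hδ hδ1 le_rfl
    rw [intervalIntegral.integral_of_le zero_le_one] at e1
    have e2 : ∫ t in Ioc (0 : ℝ) 1, W δ t / (σ ^ 2 + t ^ 2) ≤ ∫ t in Ioc (0 : ℝ) 1, 4 * W δ t := by
      refine setIntegral_mono_on i1 (((hW.integrableOn_Icc).mono_set Ioc_subset_Icc_self).const_mul 4)
        measurableSet_Ioc fun t _ => ?_
      have hw := h.nonneg δ t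
      have hs : 1 / 4 ≤ σ ^ 2 + t ^ 2 := by nlinarith [sq_nonneg t]
      rw [div_le_iff₀ (by positivity)]
      nlinarith
    rw [integral_const_mul] at e2
    linarith
  have b2 : ∫ t in Ioi (1 : ℝ), W δ t / (σ ^ 2 + t ^ 2) ≤ 4 * C := by
    refine (setIntegral_mono_on i2 t1 measurableSet_Ioi fun t ht => ?_).trans (t2.trans (by simp))
    have ht0 : (0 : ℝ) < t := lt_trans one_pos ht
    refine div_le_div_of_nonneg_left (h.nonneg δ t) (by positivity) ?_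
    nlinarith [sq_nonneg σ]
  linarith

end

end Pool.Agent.J6H10.GI
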