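import Mathlib

/-!
# Project GI (MP_0575cc_nt): the interior range of the Good-Churchhouse conjecture. Generic statements.

Everything here is real analysis; no number theory is needed (except `S_SQ`). Each statement is a `Prop`
with its proof in the docstring. `δ` is the distance from the critical line, `T` or `r` the height, and the limits
are taken along `T → ∞`, `δ log T → a`, for every `a > 0` (`Conv`). In the application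
`W δ t = δ / |ζ(1/2+δ+it)|²`.

`Base.lean` in this folder has the first facts on `Conv` and `Wgt` (import it).
-/

set_option autoImplicit false

open MeasureTheory Set Filter Topology
open scoped ContDiff

namespace Pool.Agent.J6H10.GI

/-- `F δ T → γ` as `T → ∞`, `δ log T → a`, for every `a > 0` -/
def Conv (F : ℝ → ℝ → ℝ) (γ : ℝ) : Prop :=
  ∀ a : ℝ, 0 < a → ∀ ε : ℝ, 0 < ε → ∃ η T₀ : ℝ, 0 < η ∧
    ∀ δ T : ℝ, T₀ ≤ T → |δ * Real.log T - a| < η → |F δ T - γ| ≤ ε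

/-- a family of continuous nonnegative weights with linear growth, uniformly in `0 < δ ≤ 1` -/
structure Wgt (W : ℝ → ℝ → ℝ) (C : ℝ) : Prop where
  cont : ∀ δ : ℝ, 0 < δ → δ ≤ 1 → Continuous (W δ)
  nonneg : ∀ δ t : ℝ, 0 ≤ W δ t
  bound : ∀ δ T : ℝ, 0 < δ → δ ≤ 1 → 1 ≤ T → ∫ t in (0 : ℝ)..T, W δ t ≤ C * T

/-- `|(e^(τ s) - 1) / s|²`, `s = σ + i t` -/
noncomputable def KK (τ σ t : ℝ) : ℝ :=
  ((Real.exp (τ * σ) - 1) ^ 2 + 4 * Real.exp (τ * σ) * Real.sin (τ * t / 2) ^ 2) / (σ ^ 2 + t ^ 2)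

/-- the kernel average at the scale `1/τ` -/
noncomputable def Psi (W : ℝ → ℝ → ℝ) (δ τ : ℝ) : ℝ := ∫ t in Ioi (0 : ℝ), KK τ (1 / 2 + δ) t * W δ t

/-- the same, normalised, with `τ = log (1 + 1/r)` -/
noncomputable def Phi (W : ℝ → ℝ → ℝ) (δ r : ℝ) : ℝ := 2 / Real.pi * (r * Psi W δ (Real.log (1 + 1 / r)))

/-- the mean -/
noncomputable def mom (W : ℝ → ℝ → ℝ) (δ T : ℝ) : ℝ := (∫ t in (0 : ℝ)..T, W δ t) / T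

/-- a bounded, slowly oscillating family of functions -/
structure Slow (F : ℝ → ℝ → ℝ) (K : ℝ) : Prop where
  nonneg : ∀ δ r : ℝ, 0 < δ → δ ≤ 1 → 2 ≤ r → 0 ≤ F δ r
  le : ∀ δ r : ℝ, 0 < δ → δ ≤ 1 → 2 ≤ r → F δ r ≤ K
  osc : ∀ δ r r' : ℝ, 0 < δ → δ ≤ 1 → 2 ≤ r' → r' ≤ r →
    |Real.sqrt (F δ r) - Real.sqrt (F δ r')| ≤ K * Real.sqrt (r / r' - 1)

/-- **GI-PB**. Proof. Let `σ = 1/2 + δ ≤ 3/2`, `0 < τ ≤ 1`. For `0 ≤ t ≤ 1/τ`: `e^(τσ) - 1 ≤ τσ e^(τσ)` and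
`|sin(τt/2)| ≤ τt/2` give `KK τ σ t ≤ e³ τ²`. For `t > 1/τ`: `KK τ σ t ≤ (e^(τσ)+1)² / t² ≤ 36 / t²`. So
`Psi ≤ e³ τ² ∫_0^(1/τ) W + 36 ∫_(1/τ)^∞ W / t² ≤ e³ C τ + 144 C τ` (`Base.wgt_tail`). `KK` is continuous in `t`. -/
def S_PB : Prop := ∃ K : ℝ, 0 ≤ K ∧ ∀ (W : ℝ → ℝ → ℝ) (C : ℝ), Wgt W C → ∀ δ τ : ℝ, 0 < δ → δ ≤ 1 → 0 < τ → τ ≤ 1 →
  IntegrableOn (fun t => KK τ (1 / 2 + δ) t * W δ t) (Ioi 0) ∧ 0 ≤ Psi W δ τ ∧ Psi W δ τ ≤ K * C * τ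

/-- **GI-OSC** (uses `S_PB`). Proof. Let `s = σ + it`, `f_τ(t) = (e^(τs) - 1)/s`, so `|f_τ(t)|² = KK τ σ t`. Then
`f_τ' - f_τ = e^(τs) f_(τ'-τ)` and `|e^(τs)| = e^(τσ) ≤ e²`. Minkowski's inequality in `L²(Ioi 0, W δ t dt)` (or,
by hand, `∫ |f g| W ≤ (∫ |f|² W)^(1/2) (∫ |g|² W)^(1/2)`). -/
def S_OSC : Prop := ∀ (W : ℝ → ℝ → ℝ) (C : ℝ), Wgt W C → ∀ δ τ τ' : ℝ, 0 < δ → δ ≤ 1 → 0 < τ → τ < τ' → τ' ≤ 1 →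
  |Real.sqrt (Psi W δ τ') - Real.sqrt (Psi W δ τ)| ≤ Real.exp 2 * Real.sqrt (Psi W δ (τ' - τ))

/-- **GI-PHI** (from `S_PB`, `S_OSC`). Proof. `r ≥ 2`, `τ = log(1+1/r) ≤ 1/r ≤ 1`. The bound is `S_PB`. For `r' ≤ r`,
`τ' = log(1+1/r')`: `τ' - τ ≤ 1/r' - 1/r ≤ (r/r' - 1)/r`, so `|√(r Psi(τ')) - √(r Psi(τ))| ≤ e² √(KC (r/r' - 1))`, and
`√(r Psi(τ')) - √(r' Psi(τ')) = √(r' Psi(τ')) (√(r/r') - 1)`, `√(r/r') - 1 ≤ √(r/r' - 1)`. -/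
def S_PHI : Prop := ∀ (W : ℝ → ℝ → ℝ) (C : ℝ), Wgt W C → ∃ K : ℝ, 0 ≤ K ∧ Slow (Phi W) K

/-- **GI-AV**. Dyadic means can be inverted. Proof. `F δ` is continuous on `[2, ∞)` by `osc`. (←) `F δ (T v)` is close
to `γ` uniformly in `v ∈ [3/4, 2]` (`Base.Conv.scale`), and `v^(2δ) → 1` uniformly, the interval has length `1`.
(→) First remove `v^(2δ)` and `1/(2T)` (both negligible since `0 ≤ F ≤ K`): so
`P(δ,T) = (1/T) ∫_T^(2T) F δ r dr → γ` in the sense of `Conv`. With `G(δ,T) = ∫_2^T F δ r dr`: for fixed `J`,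
`G(δ,T)/T = ∑_(j=1)^J 2^(-j) P(δ, T 2^(-j)) + O(K 2^(-J))`, hence `G(δ,T)/T → γ` (`Conv.scale`). So for fixed `λ > 1`:
`(1/T) ∫_T^(λT) F δ r dr = (G(δ,λT) - G(δ,T))/T → γ (λ-1)`, while `|F δ r - F δ T| ≤ 2√K K √(λ-1)` for
`T ≤ r ≤ λT`. Let `λ → 1`. -/
def S_AV : Prop := ∀ (F : ℝ → ℝ → ℝ) (K γ : ℝ), 0 ≤ K → Slow F K →
  (Conv (fun δ T => ∫ v in (1 - 1 / (2 * T))..(2 - 1 / (2 * T)), v ^ (2 * δ) * F δ (T * v)) γ ↔ Conv F γ)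

/-- **GI-KZ**. A Karamata theorem for families. Proof. With `z = T^c`, `b = δ log T`, `g_T(c) = q T (T^c) / log T`
(monotone in `c ≥ 0`, `0 ≤ g_T(c) ≤ C (1 + c)` for `T ≥ 3`), the transform is `(2b)² ∫_0^∞ e^(-2bc) g_T(c) dc`.
(→) Dominated convergence along `T → ∞`, `b → a` (the filter `comap Prod.fst atTop ⊓ comap (b) (𝓝 a)` is
countably generated; or argue by contradiction with sequences); `(2a)² ∫ e^(-2ac) γ c dc = γ`.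
(←) With `δ = a / log T`: `∫_0^∞ e^(-2ac) g_T(c) dc → γ/(2a)²` for every `a > 0`. Put
`Λ_T(f) = ∫_0^∞ e^(-c) g_T(c) f(e^(-c)) dc`, `Λ(f) = γ ∫_0^∞ e^(-c) c f(e^(-c)) dc`. `Λ_T(f) → Λ(f)` for `f(y) = y^k`
(`2a = k+1`), hence for polynomials, hence (Weierstrass, `|Λ_T f| ≤ ‖f‖ Λ_T(1)`) for continuous `f` on `[0,1]`. For
`c₀ > 0`, `h > 0` take `f ≥ 0` continuous, not zero, supported in `[e^(-c₀-h), e^(-c₀)]`: by monotonicity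
`g_T(c₀) ∫ e^(-c) f(e^(-c)) dc ≤ Λ_T(f) → Λ(f) ≤ γ (c₀+h) ∫ e^(-c) f(e^(-c)) dc` (`γ ≥ 0`); the lower bound is the same
with `[e^(-c₀), e^(-c₀+h)]`. -/
def S_KZ : Prop := ∀ (q : ℝ → ℝ → ℝ) (C γ : ℝ), (∀ T : ℝ, 2 ≤ T → MonotoneOn (q T) (Ici 1)) →
  (∀ T z : ℝ, 2 ≤ T → 1 ≤ z → 0 ≤ q T z ∧ q T z ≤ C * (1 + Real.log z)) →
  ((∀ c : ℝ, 0 < c → Tendsto (fun T : ℝ => q T (T ^ c) / Real.log T) atTop (𝓝 (γ * c))) ↔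
    Conv (fun δ T => 4 * δ ^ 2 * ∫ z in Ioi (1 : ℝ), z ^ (-(2 * δ) - 1) * q T z) γ)

/-- **GI-SINC**. `∫_0^∞ (1 - cos x)/x² dx = π/2`. Proof. E.g. Plancherel for the indicator of `[-1/2, 1/2]`, or the
Laplace transform: for `y > 0`, `J(y) = ∫_0^∞ e^(-xy) (1 - cos x)/x² dx` has `J'' = 1/y - y/(1+y²)`,
`J(∞) = J'(∞) = 0`. Or Tonelli: `1/x² = ∫_0^∞ y e^(-xy) dy` and `∫_0^∞ e^(-xy) (1 - cos x) dx = 1/y - y/(1+y²)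
= 1/(y(1+y²))`, so the integral is `∫_0^∞ dy/(1+y²) = π/2`. -/
def S_SINC : Prop := IntegrableOn (fun x : ℝ => (1 - Real.cos x) / x ^ 2) (Ioi 0) ∧
  ∫ x in Ioi (0 : ℝ), (1 - Real.cos x) / x ^ 2 = Real.pi / 2

/-- **GI-AB** (from `S_SINC`; the bounds of `S_PB` for `KK`). Proof. With `τ = log(1+1/r)`, `s = σ + it`, `t = r x`:
`r² KK τ σ (r x) = (rτ)² h(τσ + i τ r x)`, `h(z) = |(e^z - 1)/z|²`, and `|r² KK τ σ (r x) - f(x)| ≤ L_R / r` for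
`0 ≤ x ≤ R`, `f(x) = |(e^(ix) - 1)/(ix)|² = 2 (1 - cos x)/x²` (`h` is Lipschitz on bounded sets, `|rτ - 1| ≤ 1/r`).
The part `t > R r` of `Phi` is at most `(2r/π) 36 ∫_(Rr)^∞ W/t² ≤ K C / R`. And
`(1/r) ∫_0^(Rr) f(t/r) W δ t dt → c ∫_0^R f` (approximate `f` by step functions; intervals follow from `Conv (mom W)`
and `Conv.scale`). Finally `∫_0^∞ f = π`. -/
def S_AB : Prop := ∀ (W : ℝ → ℝ → ℝ) (C c : ℝ), Wgt W C → Conv (mom W) c → Conv (Phi W) (2 * c)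

/-- **GI-FT** (from `S_PB`, `S_SINC`). Proof. Let `g(x) = x² k(x)`, even, smooth, compactly supported,
`G(ξ) = ∫ g(x) cos(2πxξ) dx` (`= 𝓕 g`, rapidly decreasing: Schwartz). Inversion: `g(x) = ∫ G(ξ) cos(2πxξ) dξ` and
`0 = g(0) = ∫ G`, so `g(x) = -∫ G(ξ) (1 - cos(2πxξ)) dξ`, and
`∫_0^∞ k = ∫_0^∞ g(x)/x² dx = -∫ G(ξ) π² |ξ| dξ` (`S_SINC`, Fubini). With `σ = 1/2+δ`,
`(1/T) ∫_0^∞ k(t/T) W dt = T ∫_0^∞ g(t/T) W/(σ²+t²) dt + O(C'/T)` (since `k(t/T) - T² g(t/T)/(σ²+t²) =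
k(t/T) σ²/(σ²+t²)`), and `T ∫_0^∞ g(t/T) W/(σ²+t²) dt = -∫ G(ξ) B(ξ) dξ`,
`B(ξ) = T ∫_0^∞ (1 - cos(2πξt/T)) W/(σ²+t²) dt`. With `τ = 2π|ξ|/T ≤ 1`: since
`e^(-στ) (σ²+t²) KK τ σ t = 2 cosh(στ) - 2 cos(τt)`,
`B = T (e^(-στ) Psi W δ τ - 2 (cosh(στ) - 1) ∫ W/(σ²+t²)) / 2`, so `|B| ≤ K (|ξ| + ξ²)` and, for fixed `ξ`,
`B → π² c |ξ|` (`Psi W δ τ / τ → π c` by hypothesis with `r = 1/(e^τ - 1)`, `r/T → 1/(2π|ξ|)`, `Conv.scale`). For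
`τ > 1`: `|B| ≤ 2T ∫ W/(σ²+t²) ≤ K T ≤ K' |ξ|`. Dominated convergence (or: split at `|ξ| ≤ R`). -/
def S_FT : Prop := ∀ (W : ℝ → ℝ → ℝ) (C c : ℝ), Wgt W C → Conv (Phi W) (2 * c) → ∀ k : ℝ → ℝ, ContDiff ℝ ∞ k →
  HasCompactSupport k → (∀ x, k (-x) = k x) →
    Conv (fun δ T => (∫ t in Ioi (0 : ℝ), k (t / T) * W δ t) / T) (c * ∫ x in Ioi (0 : ℝ), k x)

/-- **GI-SW**. From smooth to sharp. Proof. `ContDiffBump (0 : ℝ)` gives even smooth `k₁ ≤ 1_[-1,1] ≤ k₂` with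
`1 - 2ε ≤ ∫_0^∞ k₁`, `∫_0^∞ k₂ ≤ 1 + 2ε` (`k₁ = 1` on `[-1+2ε, 1-2ε]`, support in `[-1+ε,1-ε]`; `k₂ = 1` on `[-1-ε, 1+ε]`,
support in `[-1-2ε, 1+2ε]`); `W ≥ 0`; `c ≥ 0` follows from the hypothesis. -/
def S_SW : Prop := ∀ (W : ℝ → ℝ → ℝ) (C c : ℝ), Wgt W C → (∀ k : ℝ → ℝ, ContDiff ℝ ∞ k →
  HasCompactSupport k → (∀ x, k (-x) = k x) →
    Conv (fun δ T => (∫ t in Ioi (0 : ℝ), k (t / T) * W δ t) / T) (c * ∫ x in Ioi (0 : ℝ), k x)) → Conv (mom W) c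

/-- `M(x; H)`, the sum of `μ(n)` over the `n ≥ 1` with `|n - x| < H / 2` -/
noncomputable def M (x H : ℝ) : ℝ :=
  ∑ n ∈ (Finset.range (⌈x + H⌉₊ + 1)).filter (fun n : ℕ => |(n : ℝ) - x| < H / 2),
    ((ArithmeticFunction.moebius n : ℤ) : ℝ)

/-- `V(X; H)`, the mean of `M(x; H)²` over `X ≤ x ≤ 2X` -/
noncomputable def V (X H : ℝ) : ℝ := (1 / X) * ∫ x in X..2 * X, M x H ^ 2

/-- **GI-SQ**. Very short windows. Proof. For `H ≤ 1` a window `|n - x| < H/2` contains at most one integer, so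
`M(x;H)² = ∑_n μ(n)² 1(|n-x| < H/2)` and `V(X;H)/H = (1/X) (#{squarefree n : X < n ≤ 2X} + O(1))`; the squarefree
integers have density `6/π²` (in the libraries, or `∑_{d² ≤ x} μ(d) ⌊x/d²⌋`). -/
def S_SQ : Prop := ∀ ε : ℝ, 0 < ε → ∃ X₀ : ℝ, ∀ X : ℝ, X₀ ≤ X → ∀ H : ℝ, 0 < H → H ≤ 1 →
  |V X H / H - 6 / Real.pi ^ 2| ≤ ε

end Pool.Agent.J6H10.GI
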