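import Pool.Agent.J6H10.GE.E6
import Pool.Agent.J6H10.GC.B5
import Pool.Agent.J6H10.GI.Base

/-! # Project GI: the weight `|δ| / |ζ(1/2+δ+it)|²` and Plancherel's formula -/

set_option autoImplicit false

open MeasureTheory Filter Topology Set
open Pool.Agent.H295R2 hiding VV gg
open Pool.Agent.H448R2.GC (Mer VV)
open Pool.Agent.J6H10.GC (kM D2 Gd Gd_exp lint_exp planch_kM fz_cont kM_nice diff_bound)

namespace Pool.Agent.J6H10.GI

/-- the weight -/
noncomputable def W0 (δ t : ℝ) : ℝ := |δ| * ‖fz (((1 / 2 + δ : ℝ) : ℂ) + t * Complex.I)‖ ^ 2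

theorem W0_nonneg (δ t : ℝ) : 0 ≤ W0 δ t := by unfold W0; positivity

theorem W0_cont {δ : ℝ} (hz : ∀ s : ℂ, 1 / 2 < s.re → Zs s ≠ 0) (hδ : 0 < δ) : Continuous (W0 δ) := by
  unfold W0
  exact continuous_const.mul ((fz_cont hz hδ).norm.pow 2)

theorem fz_ne {σ t : ℝ} (ht : t ≠ 0) : fz ((σ : ℂ) + t * Complex.I) =
    (riemannZeta ((σ : ℂ) + t * Complex.I))⁻¹ := by
  apply fz_eq
  intro h
  have := congrArg Complex.im h
  simp at this
  exact ht this

theorem W0_eq {δ t : ℝ} (ht : t ≠ 0) :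
    W0 δ t = |δ| * (1 / ‖riemannZeta (((1 / 2 + δ : ℝ) : ℂ) + t * Complex.I)‖ ^ 2) := by
  unfold W0
  rw [fz_ne ht, norm_inv, inv_pow]
  ring

theorem W0_even (δ t : ℝ) : W0 δ (-t) = W0 δ t := by
  rcases eq_or_ne t 0 with h | h
  · rw [h, neg_zero]
  · rw [W0_eq h, W0_eq (neg_ne_zero.2 h)]
    congr 3
    have e : ((1 / 2 + δ : ℝ) : ℂ) + ((-t : ℝ) : ℂ) * Complex.I =
        (starRingEnd ℂ) (((1 / 2 + δ : ℝ) : ℂ) + t * Complex.I) := by
      rw [map_add, map_mul, Complex.conj_ofReal, Complex.conj_ofReal, Complex.conj_I]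
      push_cast
      ring
    rw [e, riemannZeta_conj, Complex.norm_conj]

theorem KK_even (τ σ t : ℝ) : KK τ σ (-t) = KK τ σ t := by
  unfold KK
  rw [show τ * -t / 2 = -(τ * t / 2) by ring, Real.sin_neg]
  ring

theorem normSq_exp (a b : ℝ) : ‖Complex.exp ((a : ℂ) + b * Complex.I) - 1‖ ^ 2 =
    (Real.exp a - 1) ^ 2 + 4 * Real.exp a * Real.sin (b / 2) ^ 2 := by
  have e : Complex.exp ((a : ℂ) + b * Complex.I) - 1 =
      ((Real.exp a * Real.cos b - 1 : ℝ) : ℂ) + ((Real.exp a * Real.sin b : ℝ) : ℂ) * Complex.I := by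
    rw [Complex.exp_add, Complex.exp_mul_I, ← Complex.ofReal_exp, ← Complex.ofReal_cos, ← Complex.ofReal_sin]
    push_cast
    ring
  rw [e, ← Complex.normSq_eq_norm_sq, Complex.normSq_add_mul_I]
  have h1 : Real.cos b = 1 - 2 * Real.sin (b / 2) ^ 2 := by
    have := Real.cos_two_mul (b / 2)
    have h2 := Real.sin_sq_add_cos_sq (b / 2)
    rw [show 2 * (b / 2) = b by ring] at this
    nlinarith
  have h2 := Real.sin_sq_add_cos_sq b
  have h3 : (Real.exp a * Real.cos b - 1) ^ 2 + (Real.exp a * Real.sin b) ^ 2 =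
      Real.exp a ^ 2 * (Real.sin b ^ 2 + Real.cos b ^ 2) - 2 * Real.exp a * Real.cos b + 1 := by ring
  rw [h3, h2, h1]
  ring

theorem KK_eq {τ σ t : ℝ} (hτ : 0 < τ) (hσ : 0 < σ) :
    (τ * ‖phi τ ((σ : ℂ) + t * Complex.I)‖) ^ 2 = KK τ σ t := by
  set s : ℂ := (σ : ℂ) + t * Complex.I with hs
  have hs0 : s ≠ 0 := by
    intro h
    have := congrArg Complex.re h
    simp [hs] at this
    linarith
  have hns : ‖s‖ ^ 2 = σ ^ 2 + t ^ 2 := by
    rw [← Complex.normSq_eq_norm_sq, hs, Complex.normSq_add_mul_I]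
  have e1 : s * τ = ((τ * σ : ℝ) : ℂ) + ((τ * t : ℝ) : ℂ) * Complex.I := by
    rw [hs]
    push_cast
    ring
  unfold phi KK
  rw [norm_div, norm_mul, Complex.norm_real, Real.norm_of_nonneg hτ.le, e1]
  have h1 : τ * (‖Complex.exp (((τ * σ : ℝ) : ℂ) + ((τ * t : ℝ) : ℂ) * Complex.I) - 1‖ / (‖s‖ * τ)) =
      ‖Complex.exp (((τ * σ : ℝ) : ℂ) + ((τ * t : ℝ) : ℂ) * Complex.I) - 1‖ / ‖s‖ := by
    have : ‖s‖ ≠ 0 := norm_ne_zero_iff.2 hs0
    field_simp
  rw [h1, div_pow, hns, normSq_exp]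

/-- Plancherel's formula -/
theorem D2_real {τ δ : ℝ} (hz : ∀ s : ℂ, 1 / 2 < s.re → Zs s ≠ 0) (hδ : 0 < δ) (hδ1 : δ ≤ 1) (hτ : 0 < τ)
    (hτ1 : τ ≤ 1) : IntegrableOn (fun t => KK τ (1 / 2 + δ) t * W0 δ t) (Ioi 0) ∧
      D2 τ δ = ENNReal.ofReal (Psi W0 δ τ / (Real.pi * δ)) := by
  have hpi := Real.pi_pos
  set σ : ℝ := 1 / 2 + δ with hσ
  have hσ0 : 0 < σ := by rw [hσ]; linarith
  set σ' : ℝ := 1 / 2 + δ / 2 with hσ'
  obtain ⟨CM, hCM0, hCM⟩ := mertens_bound (θ := 1 / 2) (σ := σ') (by norm_num) hz (by rw [hσ']; linarith)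
    (by rw [hσ']; linarith)
  have hk := kM_nice hCM0 hCM
  obtain ⟨p1, p2⟩ := planch_kM (a := σ') (σ := σ) (τ := τ)
    (fun s hs => hz s (lt_trans (by rw [hσ']; linarith) hs)) hk
    (by rw [hσ']; linarith) (by rw [hσ']; linarith) (by rw [hσ', hσ]; linarith) hτ
  obtain ⟨C, _, hC⟩ := diff_bound (θ := 1 / 2) (σ := σ) (ε := 1 / 3) (by norm_num) hz
    (by rw [hσ]; linarith) (by rw [hσ]; linarith) (by norm_num) (by norm_num)
  obtain ⟨_, hi⟩ := hC τ hτ hτ1
  set g : ℝ → ℝ := fun t => KK τ σ t * ‖fz ((σ : ℂ) + t * Complex.I)‖ ^ 2 with hg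
  have e0 : ∀ ξ : ℝ, (τ * ‖phi τ (σ + 2 * Real.pi * ξ * Complex.I)‖ *
      ‖fz (σ + 2 * Real.pi * ξ * Complex.I)‖) ^ 2 = g (2 * Real.pi * ξ) := by
    intro ξ
    have e1 : (σ : ℂ) + 2 * Real.pi * ξ * Complex.I = (σ : ℂ) + ((2 * Real.pi * ξ : ℝ) : ℂ) * Complex.I := by
      push_cast
      ring
    rw [hg]
    simp only
    rw [e1, mul_pow, KK_eq hτ hσ0]
  simp_rw [e0] at p1 p2
  have hgi : Integrable g := by
    have := (integrable_comp_mul_left_iff g (by positivity : (2 * Real.pi : ℝ) ≠ 0)).1 p1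
    exact this
  have hgW : ∀ t, KK τ σ t * W0 δ t = δ * g t := by
    intro t
    rw [hg]
    unfold W0
    rw [abs_of_pos hδ]
    simp only
    ring
  have heven : ∀ t, g |t| = g t := by
    intro t
    have h1 : ∀ u, g (-u) = g u := by
      intro u
      have h2 := hgW u
      have h3 := hgW (-u)
      rw [KK_even, W0_even] at h3
      exact mul_left_cancel₀ hδ.ne' (h3.symm.trans h2)
    rcases abs_cases t with ⟨h, _⟩ | ⟨h, _⟩
    · rw [h]
    · rw [h, h1]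
  refine ⟨?_, ?_⟩
  · have : (fun t => KK τ σ t * W0 δ t) = fun t => δ * g t := funext hgW
    rw [this]
    exact (hgi.const_mul δ).integrableOn
  · unfold D2
    rw [← ofReal_integral_eq_lintegral_ofReal hi (Eventually.of_forall fun u => by positivity), ← p2]
    congr 1
    rw [Measure.integral_comp_mul_left g (2 * Real.pi)]
    have h2 : ∫ t, g t = 2 * ∫ t in Ioi (0 : ℝ), g t := by
      rw [← integral_comp_abs]
      exact integral_congr_ae (Eventually.of_forall fun t => (heven t).symm)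
    have h3 : Psi W0 δ τ = δ * ∫ t in Ioi (0 : ℝ), g t := by
      unfold Psi
      rw [← integral_const_mul]
      exact integral_congr_ae (Eventually.of_forall fun t => hgW t)
    rw [h2, h3, abs_of_pos (by positivity), smul_eq_mul]
    field_simp

open Pool.Agent.J6H10.GE (gg gg_nonneg gg_meas)

/-- the mean square of the increments with a fixed ratio -/
theorem lint_gg {κ δ : ℝ} (hκ : 0 < κ) :
    ∫⁻ u in Ioi (0 : ℝ), ENNReal.ofReal (gg κ u * u ^ (-(2 * δ))) = D2 (Real.log (1 + κ)) δ := by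
  rw [lint_exp]
  unfold D2
  refine lintegral_congr fun u => ?_
  rw [← ENNReal.ofReal_mul (Real.exp_pos u).le]
  congr 1
  have h1 : gg κ (Real.exp u) = ‖kM (u + Real.log (1 + κ)) - kM u‖ ^ 2 / Real.exp u ^ 2 := by
    rw [← Gd_exp]
    unfold gg Gd
    rw [Real.exp_log (by linarith), div_pow, mul_comm (1 + κ)]
  rw [h1, ← Real.exp_mul]
  have h2 : Real.exp (-(2 * (1 / 2 + δ) * u)) = Real.exp u * (Real.exp u ^ 2)⁻¹ * Real.exp (u * -(2 * δ)) := by
    rw [← Real.exp_nat_mul, ← Real.exp_neg, ← Real.exp_add, ← Real.exp_add]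
    congr 1
    push_cast
    ring
  rw [h2]
  ring

end Pool.Agent.J6H10.GI
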