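import Pool.Agent.J6H10.GI.Z1

/-! # Project GI: the transform of the mean over the scales -/

set_option autoImplicit false

open MeasureTheory Filter Topology Set
open Pool.Agent.H295R2 hiding VV gg
open Pool.Agent.H448R2.GC (Mer VV)
open Pool.Agent.J6H10.GC (D2)
open Pool.Agent.J6H10.GE (gg gg_nonneg gg_meas gg_meas2 gg_le kp kp_pos kp_le v_low v_up FF FF_meas FF_int VV_ratio QQ)

namespace Pool.Agent.J6H10.GI

/-- the interval of the ratios -/
def IT (T : ℝ) : Set ℝ := Ioc (1 - 1 / (2 * T)) (2 - 1 / (2 * T))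

theorem IT_meas (T : ℝ) : MeasurableSet (IT T) := measurableSet_Ioc

theorem IT_le (T : ℝ) : (1 : ℝ) - 1 / (2 * T) ≤ 2 - 1 / (2 * T) := by linarith

/-- the density over the scales -/
noncomputable def hh (T X : ℝ) : ℝ := VV X (X / T) / (X / T) / X

theorem hh_eq {T X : ℝ} (hT : 2 ≤ T) (hX : 1 ≤ X) : hh T X = ∫ v in IT T, FF T X v := by
  have hX0 : 0 < X := by linarith
  have hT0 : 0 < T := by linarith
  unfold hh IT
  rw [VV_ratio hX0 (by linarith), intervalIntegral.integral_of_le (IT_le T)]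
  have e3 : ∀ v, FF T X v = (T / X ^ 2) * ((X * v) ^ 2 * gg (kp T v) (X * v)) := by
    intro v
    unfold FF
    field_simp
  simp_rw [e3]
  rw [integral_const_mul]
  field_simp

theorem FF_nonneg {T X v : ℝ} (hT : 0 ≤ T) : 0 ≤ FF T X v := by
  unfold FF
  have := gg_nonneg (kp T v) (X * v)
  positivity

theorem FF_meas_right (T X : ℝ) : Measurable (FF T X) := (FF_meas T).comp (measurable_const.prodMk measurable_id)

theorem FF_int_right {T X : ℝ} (hT : 2 ≤ T) (hX : 1 ≤ X) : IntegrableOn (FF T X) (IT T) := by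
  refine Measure.integrableOn_of_bounded (M := T * 4 * 9) ?_ (FF_meas_right T X).aestronglyMeasurable ?_
  · unfold IT
    rw [Real.volume_Ioc]
    exact ENNReal.ofReal_ne_top
  · refine (ae_restrict_iff' (IT_meas T)).2 (Eventually.of_forall fun v hv => ?_)
    exact Pool.Agent.J6H10.GE.FF_bound hT hX hv.1.le hv.2

/-- the density as a lower integral -/
noncomputable def GG (T X : ℝ) : ENNReal := ∫⁻ v in IT T, ENNReal.ofReal (FF T X v)

theorem GG_meas (T : ℝ) : Measurable (GG T) := by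
  unfold GG
  exact Measurable.lintegral_prod_right' (f := fun p : ℝ × ℝ => ENNReal.ofReal (FF T p.1 p.2))
    (FF_meas T).ennreal_ofReal

theorem hh_lint {T X : ℝ} (hT : 2 ≤ T) (hX : 1 ≤ X) : ENNReal.ofReal (hh T X) = GG T X := by
  rw [hh_eq hT hX]
  unfold GG
  exact ofReal_integral_eq_lintegral_ofReal (FF_int_right hT hX)
    (Eventually.of_forall fun v => FF_nonneg (by linarith))

theorem hh_nonneg {T X : ℝ} (hT : 2 ≤ T) (hX : 1 ≤ X) : 0 ≤ hh T X := by
  rw [hh_eq hT hX]
  exact setIntegral_nonneg (IT_meas T) fun v _ => FF_nonneg (by linarith)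

theorem hh_int {T z : ℝ} (hT : 2 ≤ T) : IntegrableOn (hh T) (Ioc 1 z) := by
  have h1 := (FF_int (z := z) hT).integral_prod_left
  refine Integrable.congr h1 ?_
  refine (ae_restrict_iff' measurableSet_Ioc).2 (Eventually.of_forall fun X hX => ?_)
  exact (hh_eq hT hX.1.le).symm

theorem QQ_eq (T : ℝ) {z : ℝ} (hz : 1 ≤ z) : QQ T z = ∫ X in Ioc 1 z, hh T X := by
  unfold Pool.Agent.J6H10.GE.QQ
  rw [intervalIntegral.integral_of_le hz]
  rfl

theorem QQ_nonneg {T z : ℝ} (hT : 2 ≤ T) (hz : 1 ≤ z) : 0 ≤ QQ T z := by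
  rw [QQ_eq T hz]
  exact setIntegral_nonneg measurableSet_Ioc fun X hX => hh_nonneg hT hX.1.le

theorem QQ_mono {T : ℝ} (hT : 2 ≤ T) : MonotoneOn (QQ T) (Ici 1) := by
  intro z hz z' hz' hzz
  rw [QQ_eq T hz, QQ_eq T hz']
  refine setIntegral_mono_set (hh_int hT) ?_ (Ioc_subset_Ioc_right hzz).eventuallyLE
  exact (ae_restrict_iff' measurableSet_Ioc).2 (Eventually.of_forall fun X hX => hh_nonneg hT hX.1.le)

theorem QQ_lint {T z : ℝ} (hT : 2 ≤ T) (hz : 1 ≤ z) : ENNReal.ofReal (QQ T z) = ∫⁻ X in Ioc 1 z, GG T X := by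
  rw [QQ_eq T hz, ofReal_integral_eq_lintegral_ofReal (hh_int hT)
    ((ae_restrict_iff' measurableSet_Ioc).2 (Eventually.of_forall fun X hX => hh_nonneg hT hX.1.le))]
  exact setLIntegral_congr_fun measurableSet_Ioc fun X hX => hh_lint hT hX.1.le

/-- the power weight -/
theorem lint_pow {δ X : ℝ} (hδ : 0 < δ) (hX : 0 < X) :
    ∫⁻ z in Ioi X, ENNReal.ofReal (z ^ (-(2 * δ) - 1)) = ENNReal.ofReal (X ^ (-(2 * δ)) / (2 * δ)) := by
  have h1 : -(2 * δ) - 1 < -1 := by linarith
  rw [← ofReal_integral_eq_lintegral_ofReal (integrableOn_Ioi_rpow_of_lt h1 hX)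
    ((ae_restrict_iff' measurableSet_Ioi).2 (Eventually.of_forall fun z hz => ?_)), integral_Ioi_rpow_of_lt h1 hX]
  · congr 1
    rw [sub_add_cancel, neg_div_neg_eq]
  · exact Real.rpow_nonneg (hX.le.trans (le_of_lt hz)) _

/-- Tonelli over the scales -/
theorem trans1 {T δ : ℝ} (hT : 2 ≤ T) (hδ : 0 < δ) :
    ∫⁻ z in Ioi (1 : ℝ), ENNReal.ofReal (z ^ (-(2 * δ) - 1)) * ENNReal.ofReal (QQ T z) =
      ∫⁻ X in Ioi (1 : ℝ), GG T X * ENNReal.ofReal (X ^ (-(2 * δ)) / (2 * δ)) := by
  have e1 : ∫⁻ z in Ioi (1 : ℝ), ENNReal.ofReal (z ^ (-(2 * δ) - 1)) * ENNReal.ofReal (QQ T z) =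
      ∫⁻ z in Ioi (1 : ℝ), ∫⁻ X in Ioi (1 : ℝ), (Iio z).indicator (fun X => GG T X) X *
        ENNReal.ofReal (z ^ (-(2 * δ) - 1)) := by
    refine setLIntegral_congr_fun measurableSet_Ioi fun z hz => ?_
    have hz1 : 1 ≤ z := le_of_lt hz
    rw [lintegral_mul_const' _ _ ENNReal.ofReal_ne_top, mul_comm]
    congr 1
    rw [QQ_lint hT hz1, lintegral_indicator measurableSet_Iio, Measure.restrict_restrict measurableSet_Iio,
      inter_comm, Ioi_inter_Iio]
    exact setLIntegral_congr Ioo_ae_eq_Ioc.symm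
  rw [e1, lintegral_lintegral_swap]
  · refine setLIntegral_congr_fun measurableSet_Ioi fun X hX => ?_
    have hX1 : (1 : ℝ) < X := hX
    have e2 : ∀ z : ℝ, (Iio z).indicator (fun X => GG T X) X * ENNReal.ofReal (z ^ (-(2 * δ) - 1)) =
        GG T X * (Ioi X).indicator (fun z => ENNReal.ofReal (z ^ (-(2 * δ) - 1))) z := by
      intro z
      by_cases h : X < z
      · rw [indicator_of_mem (show X ∈ Iio z from h), indicator_of_mem (show z ∈ Ioi X from h)]
      · rw [indicator_of_notMem (show X ∉ Iio z from h), indicator_of_notMem (show z ∉ Ioi X from h), zero_mul,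
          mul_zero]
    simp_rw [e2]
    have hm : Measurable fun z : ℝ => ENNReal.ofReal (z ^ (-(2 * δ) - 1)) := (measurable_id.pow_const _).ennreal_ofReal
    rw [lintegral_const_mul _ (hm.indicator measurableSet_Ioi), lintegral_indicator measurableSet_Ioi,
      Measure.restrict_restrict measurableSet_Ioi, inter_eq_left.2 (Ioi_subset_Ioi hX1.le), lint_pow hδ (by linarith)]
  · have hm : Measurable fun p : ℝ × ℝ => (Iio p.1).indicator (fun X => GG T X) p.2 *
        ENNReal.ofReal (p.1 ^ (-(2 * δ) - 1)) := by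
      refine Measurable.mul ?_ (measurable_fst.pow_const _).ennreal_ofReal
      have e : (fun p : ℝ × ℝ => (Iio p.1).indicator (fun X => GG T X) p.2) =
          {p : ℝ × ℝ | p.2 < p.1}.indicator (fun p => GG T p.2) := by
        funext p
        by_cases h : p.2 < p.1
        · rw [indicator_of_mem (show p.2 ∈ Iio p.1 from h), indicator_of_mem (show p ∈ {p : ℝ × ℝ | p.2 < p.1} from h)]
        · rw [indicator_of_notMem (show p.2 ∉ Iio p.1 from h),
            indicator_of_notMem (show p ∉ {p : ℝ × ℝ | p.2 < p.1} from h)]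
      rw [e]
      exact ((GG_meas T).comp measurable_snd).indicator (measurableSet_lt measurable_snd measurable_fst)
    exact hm.aemeasurable

/-- scaling of a lower integral over a half line -/
theorem lint_scale {v : ℝ} (hv : 0 < v) (g : ℝ → ENNReal) :
    ∫⁻ u in Ioi v, g u = ENNReal.ofReal v * ∫⁻ X in Ioi (1 : ℝ), g (X * v) := by
  have h := lintegral_image_eq_lintegral_abs_deriv_mul (s := Ioi (1 : ℝ)) (f := fun X => X * v)
    (f' := fun _ => v) measurableSet_Ioi
    (fun x _ => ((hasDerivAt_id x).mul_const v |>.congr_deriv (one_mul v)).hasDerivWithinAt)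
    (fun x _ y _ hxy => mul_right_cancel₀ hv.ne' hxy) g
  have e : (fun X => X * v) '' Ioi (1 : ℝ) = Ioi v := by
    ext u
    constructor
    · rintro ⟨X, hX, rfl⟩
      have : (1 : ℝ) < X := hX
      show v < X * v
      nlinarith
    · intro hu
      refine ⟨u / v, ?_, by field_simp⟩
      show 1 < u / v
      rw [one_lt_div hv]
      exact hu
  rw [e, abs_of_pos hv] at h
  rw [h, lintegral_const_mul' _ _ ENNReal.ofReal_ne_top]

/-- the truncated mean square -/
noncomputable def EV (T δ v : ℝ) : ENNReal := ∫⁻ u in Ioi v, ENNReal.ofReal (gg (kp T v) u * u ^ (-(2 * δ)))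

/-- Tonelli over the ratios -/
theorem trans2 {T δ : ℝ} (hT : 2 ≤ T) (hδ : 0 < δ) :
    ∫⁻ X in Ioi (1 : ℝ), GG T X * ENNReal.ofReal (X ^ (-(2 * δ)) / (2 * δ)) =
      ENNReal.ofReal (1 / (2 * δ)) * ∫⁻ v in IT T, ENNReal.ofReal (T * v ^ (1 + 2 * δ)) * EV T δ v := by
  have hT0 : 0 < T := by linarith
  have e1 : ∫⁻ X in Ioi (1 : ℝ), GG T X * ENNReal.ofReal (X ^ (-(2 * δ)) / (2 * δ)) =
      ∫⁻ X in Ioi (1 : ℝ), ∫⁻ v in IT T, ENNReal.ofReal (FF T X v) * ENNReal.ofReal (X ^ (-(2 * δ)) / (2 * δ)) := by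
    refine setLIntegral_congr_fun measurableSet_Ioi fun X hX => ?_
    rw [lintegral_mul_const' _ _ ENNReal.ofReal_ne_top]
    rfl
  rw [e1, lintegral_lintegral_swap, ← lintegral_const_mul' _ _ ENNReal.ofReal_ne_top]
  · refine setLIntegral_congr_fun (IT_meas T) fun v hv => ?_
    have hv34 := v_low hT hv.1.le
    have hv0 : 0 < v := by linarith
    unfold EV
    rw [lint_scale hv0, ← mul_assoc, ← mul_assoc, ← ENNReal.ofReal_mul (by positivity),
      ← ENNReal.ofReal_mul (by positivity), ← lintegral_const_mul' _ _ ENNReal.ofReal_ne_top]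
    refine setLIntegral_congr_fun measurableSet_Ioi fun X hX => ?_
    have hX0 : (0 : ℝ) < X := lt_trans one_pos hX
    rw [← ENNReal.ofReal_mul (FF_nonneg hT0.le), ← ENNReal.ofReal_mul (by positivity)]
    congr 1
    unfold FF
    rw [mul_comm X v, Real.mul_rpow hv0.le hX0.le, Real.rpow_add hv0, Real.rpow_one, Real.rpow_neg hv0.le]
    have : 0 < v ^ (2 * δ) := by positivity
    field_simp
  · have hm : Measurable fun p : ℝ × ℝ => ENNReal.ofReal (FF T p.1 p.2) *
        ENNReal.ofReal (p.1 ^ (-(2 * δ)) / (2 * δ)) :=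
      (FF_meas T).ennreal_ofReal.mul ((measurable_fst.pow_const _).div_const _).ennreal_ofReal
    exact hm.aemeasurable

/-- the small integers contribute little -/
theorem small_part {κ δ v : ℝ} (hκ : 0 < κ) (hκ1 : κ ≤ 2 / 3) (hδ : 0 < δ) (hδ1 : δ ≤ 1) (hv : v ≤ 2) :
    ∫⁻ u in Ioc (0 : ℝ) v, ENNReal.ofReal (gg κ u * u ^ (-(2 * δ))) ≤ ENNReal.ofReal (162 * κ) := by
  set S : ℕ → Set ℝ := fun n => Ico ((n : ℝ) / (1 + κ)) n with hS
  have hk0 : 0 < 1 + κ := by linarith
  have key : ∀ u ∈ Ioc (0 : ℝ) v, ENNReal.ofReal (gg κ u * u ^ (-(2 * δ))) ≤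
      (S 1).indicator (fun _ => ENNReal.ofReal 27) u + (S 2).indicator (fun _ => ENNReal.ofReal 27) u +
        (S 3).indicator (fun _ => ENNReal.ofReal 27) u := by
    intro u hu
    have hu0 : 0 < u := hu.1
    have hu2 : u ≤ 2 := hu.2.trans hv
    by_cases hg : gg κ u = 0
    · rw [hg, zero_mul, ENNReal.ofReal_zero]
      exact bot_le
    · have hM : ⌊(1 + κ) * u⌋₊ ≠ ⌊u⌋₊ := by
        intro h
        apply hg
        unfold gg Pool.Agent.H448R2.GC.Mer
        rw [h, sub_self, zero_div]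
        norm_num
      have hle : ⌊u⌋₊ ≤ ⌊(1 + κ) * u⌋₊ := Nat.floor_le_floor (by nlinarith)
      have hlt : ⌊u⌋₊ < ⌊(1 + κ) * u⌋₊ := lt_of_le_of_ne hle (Ne.symm hM)
      have h1 : u < (⌊u⌋₊ : ℝ) + 1 := Nat.lt_floor_add_one u
      have h2 : ((⌊u⌋₊ : ℝ) + 1) ≤ (1 + κ) * u := by
        have : ((⌊u⌋₊ + 1 : ℕ) : ℝ) ≤ (⌊(1 + κ) * u⌋₊ : ℝ) := by exact_mod_cast hlt
        have h3 := Nat.floor_le (by positivity : 0 ≤ (1 + κ) * u)
        push_cast at this
        linarith
      have h3 : ⌊u⌋₊ ≤ 2 := by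
        have := Nat.floor_le_floor hu2
        simpa using this
      have hu35 : 3 / 5 ≤ u := by
        have h4 : 1 ≤ (1 + κ) * u := by
          have : (0 : ℝ) ≤ (⌊u⌋₊ : ℝ) := Nat.cast_nonneg _
          linarith
        nlinarith
      have hval : gg κ u * u ^ (-(2 * δ)) ≤ 27 := by
        have a1 := gg_le hκ.le hu0
        have a2 : (2 + κ) ^ 2 ≤ 64 / 9 := by nlinarith
        have a3 : u ^ (-(2 * δ)) ≤ (3 / 5 : ℝ) ^ (-(2 * δ)) :=
          Real.rpow_le_rpow_of_nonpos (by norm_num) hu35 (by linarith)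
        have a4 : (3 / 5 : ℝ) ^ (-(2 * δ)) ≤ (3 / 5 : ℝ) ^ (-(2 : ℝ)) :=
          Real.rpow_le_rpow_of_exponent_ge (by norm_num) (by norm_num) (by linarith)
        have a5 : (3 / 5 : ℝ) ^ (-(2 : ℝ)) = 25 / 9 := by
          rw [Real.rpow_neg (by norm_num)]
          norm_num
        have a6 := gg_nonneg κ u
        calc gg κ u * u ^ (-(2 * δ)) ≤ (64 / 9) * (25 / 9) := by
              apply mul_le_mul (a1.trans a2) ((a3.trans a4).trans_eq a5) (by positivity) (by norm_num)
          _ ≤ 27 := by norm_num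
      have hval2 : ENNReal.ofReal (gg κ u * u ^ (-(2 * δ))) ≤ ENNReal.ofReal 27 := ENNReal.ofReal_le_ofReal hval
      have hmem : ∀ n : ℕ, n = ⌊u⌋₊ + 1 → u ∈ S n := by
        intro n hn
        refine ⟨?_, ?_⟩
        · rw [div_le_iff₀ hk0, hn]
          push_cast
          linarith
        · rw [hn]
          push_cast
          exact h1
      interval_cases hfl : ⌊u⌋₊
      · rw [indicator_of_mem (hmem 1 rfl)]
        exact hval2.trans (le_add_right (le_add_right le_rfl))
      · rw [indicator_of_mem (hmem 2 rfl)]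
        exact hval2.trans (le_add_right (le_add_left le_rfl))
      · rw [indicator_of_mem (hmem 3 rfl)]
        exact hval2.trans (le_add_left le_rfl)
  have hSm : ∀ n, MeasurableSet (S n) := fun n => measurableSet_Ico
  have hSi : ∀ n : ℕ, ∫⁻ u, (S n).indicator (fun _ => ENNReal.ofReal 27) u ≤ ENNReal.ofReal (27 * (n * κ)) := by
    intro n
    rw [lintegral_indicator (hSm n), setLIntegral_const, Real.volume_Ico, ← ENNReal.ofReal_mul (by norm_num)]
    apply ENNReal.ofReal_le_ofReal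
    refine mul_le_mul_of_nonneg_left ?_ (by norm_num)
    have hn : (0 : ℝ) ≤ n := Nat.cast_nonneg n
    have : (n : ℝ) - n / (1 + κ) = n * (κ / (1 + κ)) := by field_simp; ring
    rw [this]
    refine mul_le_mul_of_nonneg_left ?_ hn
    exact div_le_self hκ.le (by linarith)
  calc ∫⁻ u in Ioc (0 : ℝ) v, ENNReal.ofReal (gg κ u * u ^ (-(2 * δ)))
      ≤ ∫⁻ u in Ioc (0 : ℝ) v, ((S 1).indicator (fun _ => ENNReal.ofReal 27) u +
        (S 2).indicator (fun _ => ENNReal.ofReal 27) u + (S 3).indicator (fun _ => ENNReal.ofReal 27) u) :=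
        setLIntegral_mono' measurableSet_Ioc key
    _ ≤ ∫⁻ u, ((S 1).indicator (fun _ => ENNReal.ofReal 27) u +
        (S 2).indicator (fun _ => ENNReal.ofReal 27) u + (S 3).indicator (fun _ => ENNReal.ofReal 27) u) :=
        setLIntegral_le_lintegral _ _
    _ ≤ ENNReal.ofReal (27 * ((1 : ℕ) * κ)) + ENNReal.ofReal (27 * ((2 : ℕ) * κ)) +
        ENNReal.ofReal (27 * ((3 : ℕ) * κ)) := by
        rw [lintegral_add_right _ (measurable_const.indicator (hSm 3)),
          lintegral_add_right _ (measurable_const.indicator (hSm 2))]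
        exact add_le_add (add_le_add (hSi 1) (hSi 2)) (hSi 3)
    _ = ENNReal.ofReal (162 * κ) := by
        rw [← ENNReal.ofReal_add (by positivity) (by positivity), ← ENNReal.ofReal_add (by positivity) (by positivity)]
        congr 1
        push_cast
        ring

end Pool.Agent.J6H10.GI
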