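import Pool.Agent.J6H10.GI.Z2

/-! # Project GI: the transform of the mean over the scales and the kernel averages of `1/ζ` -/

set_option autoImplicit false

open MeasureTheory Filter Topology Set
open Pool.Agent.H295R2 hiding VV gg
open Pool.Agent.H448R2.GC (Mer VV)
open Pool.Agent.J6H10.GC (D2)
open Pool.Agent.J6H10.GE (gg gg_nonneg gg_meas gg_meas2 gg_le kp kp_pos kp_le v_low v_up FF FF_meas FF_int VV_ratio QQ)

namespace Pool.Agent.J6H10.GI

noncomputable def AA (T δ : ℝ) : ENNReal := ∫⁻ v in IT T, ENNReal.ofReal (T * v ^ (1 + 2 * δ)) * EV T δ v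

noncomputable def BB (T δ : ℝ) : ENNReal :=
  ∫⁻ v in IT T, ENNReal.ofReal (T * v ^ (1 + 2 * δ)) * D2 (Real.log (1 + kp T v)) δ

theorem D2_split {T v δ : ℝ} (hT : 2 ≤ T) (hv : v ∈ IT T) (hδ : 0 < δ) (hδ1 : δ ≤ 1) :
    EV T δ v ≤ D2 (Real.log (1 + kp T v)) δ ∧
      D2 (Real.log (1 + kp T v)) δ ≤ EV T δ v + ENNReal.ofReal (162 * kp T v) := by
  have h1 := v_low hT hv.1.le
  have h2 := v_up (by linarith) hv.2
  have hv0 : 0 < v := by linarith
  have hk := kp_pos (by linarith : 0 < T) hv0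
  rw [← lint_gg hk]
  unfold EV
  constructor
  · exact lintegral_mono_set (Ioi_subset_Ioi hv0.le)
  · rw [← Ioc_union_Ioi_eq_Ioi hv0.le, lintegral_union measurableSet_Ioi
      (by rw [Set.disjoint_left]; intro x hx hx'; exact absurd hx.2 (not_le.2 hx')), add_comm]
    exact add_le_add le_rfl (small_part hk (kp_le hT h1) hδ hδ1 h2)

theorem AB1 {T δ : ℝ} (hT : 2 ≤ T) (hδ : 0 < δ) (hδ1 : δ ≤ 1) : AA T δ ≤ BB T δ := by
  unfold AA BB
  exact setLIntegral_mono' (IT_meas T) fun v hv => mul_le_mul' le_rfl (D2_split hT hv hδ hδ1).1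

theorem AB2 {T δ : ℝ} (hT : 2 ≤ T) (hδ : 0 < δ) (hδ1 : δ ≤ 1) : BB T δ ≤ AA T δ + ENNReal.ofReal 648 := by
  have h1 : BB T δ ≤ ∫⁻ v in IT T, (ENNReal.ofReal (T * v ^ (1 + 2 * δ)) * EV T δ v + ENNReal.ofReal 648) := by
    unfold BB
    refine setLIntegral_mono' (IT_meas T) fun v hv => ?_
    have h1 := v_low hT hv.1.le
    have h2 := v_up (by linarith) hv.2
    have hv0 : 0 < v := by linarith
    have hT0 : 0 < T := by linarith
    refine (mul_le_mul' le_rfl (D2_split hT hv hδ hδ1).2).trans ?_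
    rw [mul_add, ← ENNReal.ofReal_mul (by positivity)]
    refine add_le_add le_rfl (ENNReal.ofReal_le_ofReal ?_)
    unfold kp
    have e : T * v ^ (1 + 2 * δ) * (162 * (1 / (T * v))) = 162 * v ^ (2 * δ) := by
      rw [Real.rpow_add hv0, Real.rpow_one]
      field_simp
    rw [e]
    have h3 : v ^ (2 * δ) ≤ 4 := by
      calc v ^ (2 * δ) ≤ 2 ^ (2 * δ) := Real.rpow_le_rpow hv0.le h2 (by linarith)
        _ ≤ 2 ^ (2 : ℝ) := Real.rpow_le_rpow_of_exponent_le (by norm_num) (by linarith)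
        _ = 4 := by norm_num
    linarith
  refine h1.trans ?_
  rw [lintegral_add_right _ measurable_const, setLIntegral_const]
  unfold AA
  refine add_le_add le_rfl (le_of_eq ?_)
  unfold IT
  rw [Real.volume_Ioc]
  have : (2 : ℝ) - 1 / (2 * T) - (1 - 1 / (2 * T)) = 1 := by ring
  rw [this, ENNReal.ofReal_one, mul_one]

/-- the transform of the mean over the scales -/
noncomputable def LL (δ T : ℝ) : ℝ := 4 * δ ^ 2 * ∫ z in Ioi (1 : ℝ), z ^ (-(2 * δ) - 1) * QQ T z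

theorem QQ_aesm {T : ℝ} (hT : 2 ≤ T) (δ : ℝ) :
    AEStronglyMeasurable (fun z => z ^ (-(2 * δ) - 1) * QQ T z) (volume.restrict (Ioi 1)) := by
  have h1 : AEMeasurable (QQ T) (volume.restrict (Ioi 1)) :=
    aemeasurable_restrict_of_monotoneOn measurableSet_Ioi ((QQ_mono hT).mono Ioi_subset_Ici_self)
  exact ((measurable_id.pow_const _).aemeasurable.mul h1).aestronglyMeasurable

theorem lint_LL {T δ : ℝ} (hT : 2 ≤ T) (hδ : 0 < δ) :
    ∫⁻ z in Ioi (1 : ℝ), ENNReal.ofReal (z ^ (-(2 * δ) - 1) * QQ T z) =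
      ENNReal.ofReal (1 / (2 * δ)) * AA T δ := by
  unfold AA
  rw [← trans2 hT hδ, ← trans1 hT hδ]
  refine setLIntegral_congr_fun measurableSet_Ioi fun z hz => ?_
  exact ENNReal.ofReal_mul (Real.rpow_nonneg (le_trans zero_le_one (le_of_lt hz)) _)

theorem LL_eq {T δ : ℝ} (hT : 2 ≤ T) (hδ : 0 < δ) : LL δ T = 2 * δ * (AA T δ).toReal := by
  unfold LL
  rw [integral_eq_lintegral_of_nonneg_ae ((ae_restrict_iff' measurableSet_Ioi).2
    (Eventually.of_forall fun z hz => ?_)) (QQ_aesm hT δ), lint_LL hT hδ, ENNReal.toReal_mul,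
    ENNReal.toReal_ofReal (by positivity)]
  · field_simp
    ring
  · exact mul_nonneg (Real.rpow_nonneg (le_trans zero_le_one (le_of_lt hz)) _) (QQ_nonneg hT (le_of_lt hz))

theorem tau_bd {r : ℝ} (hr : 1 ≤ r) : 0 < Real.log (1 + 1 / r) ∧ Real.log (1 + 1 / r) ≤ 1 / r ∧
    Real.log (1 + 1 / r) ≤ 1 ∧ 1 / (2 * r) ≤ Real.log (1 + 1 / r) := by
  have hr0 : 0 < r := by linarith
  have h1 : 0 < 1 / r := by positivity
  have h2 : 1 / r ≤ 1 := by rw [div_le_one hr0]; exact hr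
  have h3 : Real.log (1 + 1 / r) ≤ 1 / r := by
    have := Real.log_le_sub_one_of_pos (by linarith : 0 < 1 + 1 / r)
    linarith
  refine ⟨Real.log_pos (by linarith), h3, h3.trans h2, ?_⟩
  have h4 := Real.one_sub_inv_le_log_of_pos (by linarith : 0 < 1 + 1 / r)
  refine le_trans ?_ h4
  have e : 1 - (1 + 1 / r)⁻¹ = 1 / (r + 1) := by
    field_simp
    ring
  rw [e]
  apply one_div_le_one_div_of_le <;> linarith

theorem W0_Psi_nonneg (δ τ : ℝ) : 0 ≤ Psi W0 δ τ := by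
  unfold Psi
  refine setIntegral_nonneg measurableSet_Ioi fun t _ => mul_nonneg ?_ (W0_nonneg δ t)
  unfold KK
  positivity

theorem kp_arg {T v : ℝ} : kp T v = 1 / (T * v) := rfl

/-- the integrand of `BB` -/
theorem BB_integrand {T δ v : ℝ} (hz : ∀ s : ℂ, 1 / 2 < s.re → Zs s ≠ 0) (hT : 2 ≤ T) (hv : v ∈ IT T)
    (hδ : 0 < δ) (hδ1 : δ ≤ 1) :
    ENNReal.ofReal (T * v ^ (1 + 2 * δ)) * D2 (Real.log (1 + kp T v)) δ =
      ENNReal.ofReal (v ^ (2 * δ) * Phi W0 δ (T * v) / (2 * δ)) := by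
  have h1 := v_low hT hv.1.le
  have hv0 : 0 < v := by linarith
  have hT0 : 0 < T := by linarith
  obtain ⟨t1, t2, t3, t4⟩ := tau_bd (r := T * v) (by nlinarith)
  rw [kp_arg, (D2_real hz hδ hδ1 t1 t3).2, ← ENNReal.ofReal_mul (by positivity)]
  congr 1
  unfold Phi
  rw [Real.rpow_add hv0, Real.rpow_one]
  have := Real.pi_pos
  field_simp

theorem BB_eq {T δ : ℝ} (hz : ∀ s : ℂ, 1 / 2 < s.re → Zs s ≠ 0) (hT : 2 ≤ T) (hδ : 0 < δ) (hδ1 : δ ≤ 1) :
    BB T δ = ENNReal.ofReal (1 / (2 * δ)) * ∫⁻ v in IT T, ENNReal.ofReal (v ^ (2 * δ) * Phi W0 δ (T * v)) := by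
  unfold BB
  rw [← lintegral_const_mul' _ _ ENNReal.ofReal_ne_top]
  refine setLIntegral_congr_fun (IT_meas T) fun v hv => ?_
  rw [← ENNReal.ofReal_mul (by positivity)]
  refine (BB_integrand hz hT hv hδ hδ1).trans ?_
  congr 1
  ring

theorem m_meas_aux {g : ℝ × ℝ → ℝ} (hg : Measurable g) (T δ : ℝ) :
    Measurable fun v : ℝ => ∫⁻ u in Ioi (0 : ℝ), ENNReal.ofReal (g (kp T v, u) * u ^ (-(2 * δ))) := by
  have h1 : Measurable fun p : ℝ × ℝ => (kp T p.1, p.2) := by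
    refine Measurable.prodMk ?_ measurable_snd
    unfold kp
    exact measurable_const.div (measurable_const.mul measurable_fst)
  have h2 : Measurable fun p : ℝ × ℝ => g (kp T p.1, p.2) := hg.comp h1
  have h3 : Measurable fun p : ℝ × ℝ => ENNReal.ofReal (g (kp T p.1, p.2) * p.2 ^ (-(2 * δ))) :=
    (h2.mul (measurable_snd.pow_const _)).ennreal_ofReal
  exact Measurable.lintegral_prod_right' h3

theorem m_meas (T δ : ℝ) :
    Measurable fun v : ℝ => ∫⁻ u in Ioi (0 : ℝ), ENNReal.ofReal (gg (kp T v) u * u ^ (-(2 * δ))) := by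
  have h := m_meas_aux (g := fun p : ℝ × ℝ => gg p.1 p.2) gg_meas2 T δ
  exact h

theorem Phi_aesm {T δ : ℝ} (hz : ∀ s : ℂ, 1 / 2 < s.re → Zs s ≠ 0) (hT : 2 ≤ T) (hδ : 0 < δ) (hδ1 : δ ≤ 1) :
    AEStronglyMeasurable (fun v => v ^ (2 * δ) * Phi W0 δ (T * v)) (volume.restrict (IT T)) := by
  have hT0 : 0 < T := by linarith
  obtain ⟨m, hmm, hm⟩ : ∃ m : ℝ → ENNReal, Measurable m ∧ ∀ v ∈ IT T,
      m v = ENNReal.ofReal (Psi W0 δ (Real.log (1 + 1 / (T * v))) / (Real.pi * δ)) := by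
    refine ⟨_, m_meas T δ, fun v hv => ?_⟩
    have h1 := v_low hT hv.1.le
    have hv0 : 0 < v := by linarith
    obtain ⟨t1, t2, t3, t4⟩ := tau_bd (r := T * v) (by nlinarith)
    have e1 := lint_gg (δ := δ) (kp_pos hT0 hv0)
    have e2 := (D2_real hz hδ hδ1 t1 t3).2
    exact e1.trans e2
  have h4 : Measurable fun v : ℝ => v ^ (2 * δ) * (2 / Real.pi * ((T * v) * (Real.pi * δ * (m v).toReal))) := by
    refine (measurable_id.pow_const _).mul (measurable_const.mul ((measurable_const.mul measurable_id).mul ?_))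
    exact measurable_const.mul hmm.ennreal_toReal
  refine h4.aestronglyMeasurable.congr ?_
  refine (ae_restrict_iff' (IT_meas T)).2 (Eventually.of_forall fun v hv => ?_)
  have hpi := Real.pi_pos
  have h0 := W0_Psi_nonneg δ (Real.log (1 + 1 / (T * v)))
  simp only
  rw [hm v hv, ENNReal.toReal_ofReal (by positivity)]
  unfold Phi
  field_simp

theorem W0_Phi_nonneg {δ r : ℝ} (hr : 0 ≤ r) : 0 ≤ Phi W0 δ r := by
  unfold Phi
  have h0 := W0_Psi_nonneg δ (Real.log (1 + 1 / r))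
  have hpi := Real.pi_pos
  positivity

theorem v_pow_nonneg {T δ v : ℝ} (hT : 2 ≤ T) (hv : v ∈ IT T) : 0 ≤ v ^ (2 * δ) * Phi W0 δ (T * v) := by
  have h1 := v_low hT hv.1.le
  have hv0 : 0 < v := by linarith
  exact mul_nonneg (by positivity) (W0_Phi_nonneg (by positivity))

/-- the kernel averages -/
noncomputable def PP (δ T : ℝ) : ℝ := ∫ v in (1 - 1 / (2 * T))..(2 - 1 / (2 * T)), v ^ (2 * δ) * Phi W0 δ (T * v)

theorem PP_eq {T δ : ℝ} (hz : ∀ s : ℂ, 1 / 2 < s.re → Zs s ≠ 0) (hT : 2 ≤ T) (hδ : 0 < δ) (hδ1 : δ ≤ 1) :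
    PP δ T = 2 * δ * (BB T δ).toReal := by
  unfold PP
  rw [intervalIntegral.integral_of_le (IT_le T), BB_eq hz hT hδ hδ1]
  have h1 : ∫ v in IT T, v ^ (2 * δ) * Phi W0 δ (T * v) =
      (∫⁻ v in IT T, ENNReal.ofReal (v ^ (2 * δ) * Phi W0 δ (T * v))).toReal :=
    integral_eq_lintegral_of_nonneg_ae ((ae_restrict_iff' (IT_meas T)).2
      (Eventually.of_forall fun v hv => v_pow_nonneg hT hv)) (Phi_aesm hz hT hδ hδ1)
  rw [ENNReal.toReal_mul, ENNReal.toReal_ofReal (by positivity), ← h1]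
  unfold IT
  field_simp

/-- **the comparison** -/
theorem LL_PP {T δ : ℝ} (hz : ∀ s : ℂ, 1 / 2 < s.re → Zs s ≠ 0) (hT : 2 ≤ T) (hδ : 0 < δ) (hδ1 : δ ≤ 1) :
    |LL δ T - PP δ T| ≤ 1296 * δ := by
  rw [LL_eq hT hδ, PP_eq hz hT hδ hδ1]
  have h1 := AB1 (T := T) hT hδ hδ1
  have h2 := AB2 (T := T) hT hδ hδ1
  by_cases hA : AA T δ = ⊤
  · have hB : BB T δ = ⊤ := top_le_iff.1 (hA ▸ h1)
    rw [hA, hB, sub_self, abs_zero]
    positivity
  · have hB : BB T δ ≠ ⊤ := ne_top_of_le_ne_top (ENNReal.add_ne_top.2 ⟨hA, ENNReal.ofReal_ne_top⟩) h2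
    have h3 := (ENNReal.toReal_le_toReal hA hB).2 h1
    have h4 : (BB T δ).toReal ≤ (AA T δ).toReal + 648 := by
      have := (ENNReal.toReal_le_toReal hB (ENNReal.add_ne_top.2 ⟨hA, ENNReal.ofReal_ne_top⟩)).2 h2
      rwa [ENNReal.toReal_add hA ENNReal.ofReal_ne_top, ENNReal.toReal_ofReal (by norm_num)] at this
    rw [← mul_sub, abs_mul, abs_of_pos (by positivity : 0 < 2 * δ), abs_sub_comm,
      abs_of_nonneg (by linarith)]
    nlinarith

end Pool.Agent.J6H10.GI
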