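import Pool.Agent.J6H10.GI.Z3
import Pool.Agent.W190.A17

/-! # Project GI: the bounds -/

set_option autoImplicit false

open MeasureTheory Filter Topology Set
open Pool.Agent.H295R2 hiding VV gg
open Pool.Agent.H448R2.GC (Mer VV)
open Pool.Agent.J6H10.GC (D2)
open Pool.Agent.J6H10.GE (gg gg_nonneg gg_meas gg_meas2 gg_le kp kp_pos kp_le v_low v_up FF FF_meas FF_int VV_ratio QQ)

namespace Pool.Agent.J6H10.GI

/-- an upper bound for the mean from bounds for the kernel averages -/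
theorem QQ_up {B : ℝ} (hz : ∀ s : ℂ, 1 / 2 < s.re → Zs s ≠ 0) (hB0 : 0 ≤ B)
    (hB : ∀ δ r : ℝ, 0 < δ → δ ≤ 1 → 1 ≤ r → Phi W0 δ r ≤ B) {T z : ℝ} (hT : 2 ≤ T) (hz1 : 1 ≤ z) :
    QQ T z ≤ 2 * Real.exp 2 * B * (1 + Real.log z) := by
  have hl : 0 ≤ Real.log z := Real.log_nonneg hz1
  have hz0 : 0 < z := by linarith
  set δ : ℝ := 1 / (1 + Real.log z) with hδ
  have hδ0 : 0 < δ := by positivity
  have hδ1 : δ ≤ 1 := by
    rw [hδ, div_le_one (by linarith)]
    linarith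
  have h1 : ENNReal.ofReal (QQ T z * (z ^ (-(2 * δ)) / (2 * δ))) ≤
      ENNReal.ofReal (1 / (2 * δ) * (1 / (2 * δ) * (4 * B))) := by
    calc ENNReal.ofReal (QQ T z * (z ^ (-(2 * δ)) / (2 * δ)))
        = ENNReal.ofReal (QQ T z) * ∫⁻ w in Ioi z, ENNReal.ofReal (w ^ (-(2 * δ) - 1)) := by
          rw [lint_pow hδ0 hz0, ← ENNReal.ofReal_mul (QQ_nonneg hT hz1)]
      _ = ∫⁻ w in Ioi z, ENNReal.ofReal (QQ T z) * ENNReal.ofReal (w ^ (-(2 * δ) - 1)) := by
          rw [lintegral_const_mul' _ _ ENNReal.ofReal_ne_top]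
      _ ≤ ∫⁻ w in Ioi z, ENNReal.ofReal (w ^ (-(2 * δ) - 1) * QQ T w) := by
          refine setLIntegral_mono' measurableSet_Ioi fun w hw => ?_
          have hzw : z < w := hw
          rw [← ENNReal.ofReal_mul (QQ_nonneg hT hz1), mul_comm]
          apply ENNReal.ofReal_le_ofReal
          refine mul_le_mul_of_nonneg_left ?_ (Real.rpow_nonneg (by linarith) _)
          exact QQ_mono hT (mem_Ici.2 hz1) (mem_Ici.2 (by linarith)) hzw.le
      _ ≤ ∫⁻ w in Ioi (1 : ℝ), ENNReal.ofReal (w ^ (-(2 * δ) - 1) * QQ T w) :=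
          lintegral_mono_set (Ioi_subset_Ioi hz1)
      _ = ENNReal.ofReal (1 / (2 * δ)) * AA T δ := lint_LL hT hδ0
      _ ≤ ENNReal.ofReal (1 / (2 * δ)) * BB T δ := mul_le_mul' le_rfl (AB1 hT hδ0 hδ1)
      _ = ENNReal.ofReal (1 / (2 * δ)) * (ENNReal.ofReal (1 / (2 * δ)) *
            ∫⁻ v in IT T, ENNReal.ofReal (v ^ (2 * δ) * Phi W0 δ (T * v))) := by
          rw [BB_eq hz hT hδ0 hδ1]
      _ ≤ ENNReal.ofReal (1 / (2 * δ)) * (ENNReal.ofReal (1 / (2 * δ)) *
            ∫⁻ v in IT T, ENNReal.ofReal (4 * B)) := by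
          refine mul_le_mul' le_rfl (mul_le_mul' le_rfl (setLIntegral_mono' (IT_meas T) fun v hv => ?_))
          have h1 := v_low hT hv.1.le
          have h2 := v_up (by linarith) hv.2
          have hv0 : 0 < v := by linarith
          apply ENNReal.ofReal_le_ofReal
          have h3 : v ^ (2 * δ) ≤ 4 := by
            calc v ^ (2 * δ) ≤ 2 ^ (2 * δ) := Real.rpow_le_rpow hv0.le h2 (by linarith)
              _ ≤ 2 ^ (2 : ℝ) := Real.rpow_le_rpow_of_exponent_le (by norm_num) (by linarith)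
              _ = 4 := by norm_num
          exact mul_le_mul h3 (hB δ (T * v) hδ0 hδ1 (by nlinarith)) (W0_Phi_nonneg (by positivity)) (by norm_num)
      _ = ENNReal.ofReal (1 / (2 * δ) * (1 / (2 * δ) * (4 * B))) := by
          rw [setLIntegral_const]
          unfold IT
          rw [Real.volume_Ioc]
          have : (2 : ℝ) - 1 / (2 * T) - (1 - 1 / (2 * T)) = 1 := by ring
          rw [this, ENNReal.ofReal_one, mul_one, ← ENNReal.ofReal_mul (by positivity),
            ← ENNReal.ofReal_mul (by positivity)]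
  rw [ENNReal.ofReal_le_ofReal_iff (by positivity)] at h1
  have h2 : z ^ (-(2 * δ)) = Real.exp (-(2 * δ * Real.log z)) := by
    rw [Real.rpow_def_of_pos hz0]
    congr 1
    ring
  have h3 : δ * Real.log z ≤ 1 := by
    rw [hδ, div_mul_eq_mul_div, one_mul, div_le_one (by linarith)]
    linarith
  have h4 : Real.exp (-2) ≤ z ^ (-(2 * δ)) := by
    rw [h2]
    apply Real.exp_le_exp.2
    linarith
  have h5 : QQ T z * Real.exp (-2) ≤ 2 * B / δ := by
    have h6 : QQ T z * (z ^ (-(2 * δ)) / (2 * δ)) * (2 * δ) ≤ 1 / (2 * δ) * (1 / (2 * δ) * (4 * B)) * (2 * δ) :=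
      mul_le_mul_of_nonneg_right h1 (by positivity)
    have e1 : QQ T z * (z ^ (-(2 * δ)) / (2 * δ)) * (2 * δ) = QQ T z * z ^ (-(2 * δ)) := by field_simp
    have e2 : 1 / (2 * δ) * (1 / (2 * δ) * (4 * B)) * (2 * δ) = 2 * B / δ := by field_simp; ring
    rw [e1, e2] at h6
    exact (mul_le_mul_of_nonneg_left h4 (QQ_nonneg hT hz1)).trans h6
  have h7 : 2 * B / δ = 2 * B * (1 + Real.log z) := by
    rw [hδ]
    field_simp
  rw [h7] at h5
  have h8 : Real.exp (-2) * Real.exp 2 = 1 := by rw [← Real.exp_add]; norm_num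
  calc QQ T z = QQ T z * Real.exp (-2) * Real.exp 2 := by rw [mul_assoc, h8, mul_one]
    _ ≤ 2 * B * (1 + Real.log z) * Real.exp 2 := mul_le_mul_of_nonneg_right h5 (Real.exp_pos 2).le
    _ = _ := by ring

/-- the bound for the kernel averages -/
theorem Phi_le (hPB : S_PB) {C : ℝ} (hW : Wgt W0 C) : ∃ B : ℝ, 0 ≤ B ∧
    ∀ δ r : ℝ, 0 < δ → δ ≤ 1 → 1 ≤ r → Phi W0 δ r ≤ B := by
  obtain ⟨K, hK0, hK⟩ := hPB
  have hC := hW.C_nonneg
  have hpi := Real.pi_pos
  refine ⟨2 / Real.pi * (K * C), by positivity, fun δ r hδ hδ1 hr => ?_⟩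
  have hr0 : 0 < r := by linarith
  obtain ⟨t1, t2, t3, t4⟩ := tau_bd hr
  obtain ⟨_, _, h1⟩ := hK W0 C hW δ _ hδ hδ1 t1 t3
  unfold Phi
  refine mul_le_mul_of_nonneg_left ?_ (by positivity)
  calc r * Psi W0 δ (Real.log (1 + 1 / r)) ≤ r * (K * C * Real.log (1 + 1 / r)) :=
        mul_le_mul_of_nonneg_left h1 hr0.le
    _ ≤ r * (K * C * (1 / r)) := by
        refine mul_le_mul_of_nonneg_left (mul_le_mul_of_nonneg_left t2 (by positivity)) hr0.le
    _ = K * C := by field_simp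

/-- a lower bound for the kernel -/
theorem KK_low {τ σ t : ℝ} (hτ : 0 < τ) (hσ : 0 < σ) (ht : 0 ≤ t) (htτ : τ * t ≤ 2) :
    4 / Real.pi ^ 2 * τ ^ 2 ≤ KK τ σ t := by
  have hpi := Real.pi_pos
  have hpi3 := Real.pi_gt_three
  unfold KK
  rw [le_div_iff₀ (by positivity)]
  have h1 : (τ * σ) ^ 2 ≤ (Real.exp (τ * σ) - 1) ^ 2 := by
    have := Real.add_one_le_exp (τ * σ)
    have h0 : 0 ≤ τ * σ := by positivity
    apply pow_le_pow_left₀ h0
    linarith
  have h2 : 2 / Real.pi * (τ * t / 2) ≤ Real.sin (τ * t / 2) :=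
    Real.mul_le_sin (by positivity) (by linarith)
  have h3 : (2 / Real.pi * (τ * t / 2)) ^ 2 ≤ Real.sin (τ * t / 2) ^ 2 := by
    apply pow_le_pow_left₀ (by positivity) h2
  have h4 : 1 ≤ Real.exp (τ * σ) := Real.one_le_exp (by positivity)
  have h5 : 4 / Real.pi ^ 2 ≤ 1 := by
    rw [div_le_one (by positivity)]
    nlinarith
  have e3 : (2 / Real.pi * (τ * t / 2)) ^ 2 = τ ^ 2 * t ^ 2 / Real.pi ^ 2 := by
    field_simp
  rw [e3] at h3
  have h6 : 4 * (τ ^ 2 * t ^ 2 / Real.pi ^ 2) ≤ 4 * Real.exp (τ * σ) * Real.sin (τ * t / 2) ^ 2 := by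
    have : 0 ≤ Real.sin (τ * t / 2) ^ 2 := by positivity
    nlinarith
  have h7 : 4 / Real.pi ^ 2 * (τ ^ 2 * σ ^ 2) ≤ 1 * (τ ^ 2 * σ ^ 2) :=
    mul_le_mul_of_nonneg_right h5 (by positivity)
  have e4 : 4 / Real.pi ^ 2 * τ ^ 2 * (σ ^ 2 + t ^ 2) =
      4 / Real.pi ^ 2 * (τ ^ 2 * σ ^ 2) + 4 * (τ ^ 2 * t ^ 2 / Real.pi ^ 2) := by ring
  rw [e4]
  nlinarith

/-- the second moment from the kernel averages -/
theorem Phi_low {T δ v : ℝ} (hz : ∀ s : ℂ, 1 / 2 < s.re → Zs s ≠ 0) (hT : 2 ≤ T) (hδ : 0 < δ) (hδ1 : δ ≤ 1)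
    (hv1 : 3 / 4 ≤ v) (hv2 : v ≤ 2) :
    3 / (8 * Real.pi ^ 3 * T) * ∫ t in (0 : ℝ)..(T / 2), W0 δ t ≤ Phi W0 δ (T * v) := by
  have hpi := Real.pi_pos
  have hT0 : 0 < T := by linarith
  have hv0 : 0 < v := by linarith
  have hr : 1 ≤ T * v := by nlinarith
  obtain ⟨t1, t2, t3, t4⟩ := tau_bd hr
  set τ := Real.log (1 + 1 / (T * v)) with hτ
  have h1 : 1 / (4 * T) ≤ τ := by
    refine le_trans ?_ t4
    apply one_div_le_one_div_of_le (by positivity)
    nlinarith
  have h2 : τ ≤ 4 / (3 * T) := by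
    refine t2.trans ?_
    rw [div_le_div_iff₀ (by positivity) (by positivity)]
    nlinarith
  obtain ⟨hi, _⟩ := D2_real hz hδ hδ1 t1 t3
  have hI0 : 0 ≤ ∫ t in (0 : ℝ)..(T / 2), W0 δ t :=
    intervalIntegral.integral_nonneg (by positivity) fun t _ => W0_nonneg δ t
  have hc := W0_cont hz hδ
  have h3 : 4 / Real.pi ^ 2 * τ ^ 2 * ∫ t in (0 : ℝ)..(T / 2), W0 δ t ≤ Psi W0 δ τ := by
    unfold Psi
    rw [intervalIntegral.integral_of_le (by positivity), ← integral_const_mul]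
    calc ∫ t in Ioc 0 (T / 2), 4 / Real.pi ^ 2 * τ ^ 2 * W0 δ t
        ≤ ∫ t in Ioc 0 (T / 2), KK τ (1 / 2 + δ) t * W0 δ t := by
          refine setIntegral_mono_on ?_ (hi.mono_set Ioc_subset_Ioi_self) measurableSet_Ioc fun t ht => ?_
          · exact ((continuous_const.mul hc).integrableOn_Icc).mono_set Ioc_subset_Icc_self
          · refine mul_le_mul_of_nonneg_right (KK_low t1 (by linarith) ht.1.le ?_) (W0_nonneg δ t)
            calc τ * t ≤ 4 / (3 * T) * (T / 2) := by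
                  apply mul_le_mul h2 ht.2 ht.1.le (by positivity)
              _ = 2 / 3 := by field_simp; norm_num
              _ ≤ 2 := by norm_num
      _ ≤ ∫ t in Ioi 0, KK τ (1 / 2 + δ) t * W0 δ t := by
          refine setIntegral_mono_set hi ?_ Ioc_subset_Ioi_self.eventuallyLE
          refine (ae_restrict_iff' measurableSet_Ioi).2 (Eventually.of_forall fun t _ => ?_)
          refine mul_nonneg ?_ (W0_nonneg δ t)
          unfold KK
          positivity
  have h4 : (1 / (4 * T)) ^ 2 ≤ τ ^ 2 := pow_le_pow_left₀ (by positivity) h1 2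
  unfold Phi
  rw [← hτ]
  set I := ∫ t in (0 : ℝ)..(T / 2), W0 δ t with hI
  have h5 : 4 / Real.pi ^ 2 * (1 / (4 * T)) ^ 2 * I ≤ Psi W0 δ τ := by
    refine le_trans ?_ h3
    have : 4 / Real.pi ^ 2 * (1 / (4 * T)) ^ 2 ≤ 4 / Real.pi ^ 2 * τ ^ 2 :=
      mul_le_mul_of_nonneg_left h4 (by positivity)
    exact mul_le_mul_of_nonneg_right this hI0
  calc 3 / (8 * Real.pi ^ 3 * T) * I
      = 2 / Real.pi * ((T * (3 / 4)) * (4 / Real.pi ^ 2 * (1 / (4 * T)) ^ 2 * I)) := by field_simp; ring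
    _ ≤ 2 / Real.pi * (T * v * Psi W0 δ τ) := by
        refine mul_le_mul_of_nonneg_left ?_ (by positivity)
        refine mul_le_mul ?_ h5 (by positivity) (by positivity)
        exact mul_le_mul_of_nonneg_left hv1 hT0.le

/-- the second moment from the mean -/
theorem W0_up {C : ℝ} (hz : ∀ s : ℂ, 1 / 2 < s.re → Zs s ≠ 0) (hC0 : 0 ≤ C) {T : ℝ} (hT : 2 ≤ T)
    (hC : ∀ z : ℝ, 1 ≤ z → QQ T z ≤ C * (1 + Real.log z)) {δ : ℝ} (hδ : 0 < δ) (hδ1 : δ ≤ 1) :
    ∫ t in (0 : ℝ)..(T / 2), W0 δ t ≤ 128 * Real.pi ^ 3 / 27 * (8 * C + 1296) * T := by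
  have hpi := Real.pi_pos
  have hT0 : 0 < T := by linarith
  set I := ∫ t in (0 : ℝ)..(T / 2), W0 δ t with hI
  have hI0 : 0 ≤ I := intervalIntegral.integral_nonneg (by positivity) fun t _ => W0_nonneg δ t
  -- the transform
  have h1 : ENNReal.ofReal (1 / (2 * δ)) * AA T δ ≤ ENNReal.ofReal (2 * C / δ ^ 2) := by
    rw [← lint_LL hT hδ]
    calc ∫⁻ z in Ioi (1 : ℝ), ENNReal.ofReal (z ^ (-(2 * δ) - 1) * QQ T z)
        ≤ ∫⁻ z in Ioi (1 : ℝ), ENNReal.ofReal (2 * C / δ) * ENNReal.ofReal (z ^ (-(2 * (δ / 2)) - 1)) := by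
          refine setLIntegral_mono' measurableSet_Ioi fun z hz => ?_
          have hz1 : (1 : ℝ) < z := hz
          have hz0 : 0 < z := by linarith
          rw [← ENNReal.ofReal_mul (by positivity)]
          apply ENNReal.ofReal_le_ofReal
          have a1 : Real.log z ≤ z ^ δ / δ := Real.log_le_rpow_div hz0.le hδ
          have a2 : 1 ≤ z ^ δ := Real.one_le_rpow hz1.le hδ.le
          have a3 : 1 + Real.log z ≤ 2 / δ * z ^ δ := by
            have a4 : 1 ≤ z ^ δ / δ := by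
              rw [le_div_iff₀ hδ]
              linarith
            have e : 2 / δ * z ^ δ = z ^ δ / δ + z ^ δ / δ := by ring
            rw [e]
            linarith
          calc z ^ (-(2 * δ) - 1) * QQ T z ≤ z ^ (-(2 * δ) - 1) * (C * (2 / δ * z ^ δ)) := by
                refine mul_le_mul_of_nonneg_left ?_ (by positivity)
                exact (hC z hz1.le).trans (mul_le_mul_of_nonneg_left a3 hC0)
            _ = 2 * C / δ * (z ^ (-(2 * δ) - 1) * z ^ δ) := by ring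
            _ = 2 * C / δ * z ^ (-(2 * (δ / 2)) - 1) := by
                rw [← Real.rpow_add hz0]
                congr 2
                ring
      _ = ENNReal.ofReal (2 * C / δ ^ 2) := by
          rw [lintegral_const_mul' _ _ ENNReal.ofReal_ne_top, lint_pow (by positivity) one_pos, Real.one_rpow,
            ← ENNReal.ofReal_mul (by positivity)]
          congr 1
          field_simp
  have h2 : AA T δ ≤ ENNReal.ofReal (4 * C / δ) := by
    have e : AA T δ = ENNReal.ofReal (2 * δ) * (ENNReal.ofReal (1 / (2 * δ)) * AA T δ) := by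
      rw [← mul_assoc, ← ENNReal.ofReal_mul (by positivity)]
      have : 2 * δ * (1 / (2 * δ)) = 1 := by field_simp
      rw [this, ENNReal.ofReal_one, one_mul]
    rw [e]
    refine (mul_le_mul' le_rfl h1).trans (le_of_eq ?_)
    rw [← ENNReal.ofReal_mul (by positivity)]
    congr 1
    field_simp
    ring
  have h3 : BB T δ ≤ ENNReal.ofReal (4 * C / δ + 648) := by
    refine (AB2 hT hδ hδ1).trans ?_
    rw [ENNReal.ofReal_add (by positivity) (by norm_num)]
    exact add_le_add h2 le_rfl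
  have h4 : ∫⁻ v in IT T, ENNReal.ofReal (v ^ (2 * δ) * Phi W0 δ (T * v)) ≤ ENNReal.ofReal (8 * C + 1296) := by
    have e : ∫⁻ v in IT T, ENNReal.ofReal (v ^ (2 * δ) * Phi W0 δ (T * v)) =
        ENNReal.ofReal (2 * δ) * BB T δ := by
      rw [BB_eq hz hT hδ hδ1, ← mul_assoc, ← ENNReal.ofReal_mul (by positivity)]
      have : 2 * δ * (1 / (2 * δ)) = 1 := by field_simp
      rw [this, ENNReal.ofReal_one, one_mul]
    rw [e]
    refine (mul_le_mul' le_rfl h3).trans ?_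
    rw [← ENNReal.ofReal_mul (by positivity)]
    apply ENNReal.ofReal_le_ofReal
    have e2 : 2 * δ * (4 * C / δ + 648) = 8 * C + 1296 * δ := by
      field_simp
      ring
    rw [e2]
    linarith
  have h5 : ENNReal.ofReal (9 / 16 * (3 / (8 * Real.pi ^ 3 * T) * I)) ≤ ENNReal.ofReal (8 * C + 1296) := by
    refine le_trans ?_ h4
    have e : ENNReal.ofReal (9 / 16 * (3 / (8 * Real.pi ^ 3 * T) * I)) =
        ∫⁻ v in IT T, ENNReal.ofReal (9 / 16 * (3 / (8 * Real.pi ^ 3 * T) * I)) := by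
      rw [setLIntegral_const]
      unfold IT
      rw [Real.volume_Ioc]
      have : (2 : ℝ) - 1 / (2 * T) - (1 - 1 / (2 * T)) = 1 := by ring
      rw [this, ENNReal.ofReal_one, mul_one]
    rw [e]
    refine setLIntegral_mono' (IT_meas T) fun v hv => ?_
    have b1 := v_low hT hv.1.le
    have b2 := v_up (by linarith) hv.2
    have hv0 : 0 < v := by linarith
    apply ENNReal.ofReal_le_ofReal
    have b3 : (9 / 16 : ℝ) ≤ v ^ (2 * δ) := by
      calc (9 / 16 : ℝ) = (3 / 4 : ℝ) ^ (2 : ℝ) := by norm_num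
        _ ≤ (3 / 4 : ℝ) ^ (2 * δ) :=
          Real.rpow_le_rpow_of_exponent_ge (by norm_num) (by norm_num) (by linarith)
        _ ≤ v ^ (2 * δ) := Real.rpow_le_rpow (by norm_num) b1 (by linarith)
    exact mul_le_mul b3 (Phi_low hz hT hδ hδ1 b1 b2) (by positivity) (by positivity)
  rw [ENNReal.ofReal_le_ofReal_iff (by positivity)] at h5
  have h6 : I = 128 * Real.pi ^ 3 / 27 * T * (9 / 16 * (3 / (8 * Real.pi ^ 3 * T) * I)) := by
    field_simp
    ring
  rw [h6]
  calc 128 * Real.pi ^ 3 / 27 * T * (9 / 16 * (3 / (8 * Real.pi ^ 3 * T) * I))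
      ≤ 128 * Real.pi ^ 3 / 27 * T * (8 * C + 1296) := mul_le_mul_of_nonneg_left h5 (by positivity)
    _ = _ := by ring

/-- the zero-free half plane from a bound for the mean -/
theorem free_of_bound {C : ℝ} (hC : ∀ z : ℝ, 1 ≤ z → QQ 8 z ≤ C * (1 + Real.log z)) :
    ∀ s : ℂ, 1 / 2 < s.re → riemannZeta s ≠ 0 := by
  have hC0 : 0 ≤ C := by
    have h1 := hC 1 le_rfl
    have h2 := QQ_nonneg (T := 8) (by norm_num) (le_refl (1 : ℝ))
    rw [Real.log_one] at h1
    linarith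
  have h1 : ∃ᶠ z : ℝ in atTop, QQ 8 z / Real.log z ≤ 2 * C := by
    refine Eventually.frequently ?_
    filter_upwards [eventually_ge_atTop (Real.exp 1)] with z hz
    have hz1 : 1 ≤ z := by
      have := Real.add_one_le_exp (1 : ℝ)
      linarith
    have hl : 1 ≤ Real.log z := by
      rw [Real.le_log_iff_exp_le (by linarith)]
      exact hz
    rw [div_le_iff₀ (by linarith)]
    have := hC z hz1
    nlinarith
  have h2 := (Pool.Agent.J6H10.GE.J_of_freq (T := 8) (by norm_num) h1).1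
  intro s hs h0
  by_cases h1 : 1 ≤ s.re
  · exact riemannZeta_ne_zero_of_one_le_re h1 h0
  · have h3 := (h2 s ⟨h0, by linarith, not_le.1 h1⟩).1
    linarith

/-- **the equivalence of the bounds** -/
theorem bounds_iff (hPB : S_PB) :
    (∃ C : ℝ, ∀ T z : ℝ, 2 ≤ T → 1 ≤ z → QQ T z ≤ C * (1 + Real.log z)) ↔
      ((∀ s : ℂ, 1 / 2 < s.re → riemannZeta s ≠ 0) ∧ ∃ C : ℝ, Wgt W0 C) := by
  constructor
  · rintro ⟨C, hC⟩
    have hC0 : 0 ≤ C := by
      have h1 := hC 2 1 le_rfl le_rfl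
      have h2 := QQ_nonneg (T := 2) le_rfl (le_refl (1 : ℝ))
      rw [Real.log_one] at h1
      linarith
    have hf := free_of_bound (C := C) fun z hz => hC 8 z (by norm_num) hz
    have hz := Pool.Agent.J6H10.GC.Zs_free hf
    refine ⟨hf, 2 * (128 * Real.pi ^ 3 / 27 * (8 * C + 1296)), ?_, W0_nonneg, ?_⟩
    · intro δ hδ _
      exact W0_cont hz hδ
    · intro δ T hδ hδ1 hT
      have h1 := W0_up hz hC0 (T := 2 * T) (by linarith) (fun z hz => hC (2 * T) z (by linarith) hz) hδ hδ1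
      have e : 2 * T / 2 = T := by ring
      rw [e] at h1
      linarith
  · rintro ⟨hf, C, hW⟩
    obtain ⟨B, hB0, hB⟩ := Phi_le hPB hW
    exact ⟨2 * Real.exp 2 * B, fun T z hT hz => QQ_up (Pool.Agent.J6H10.GC.Zs_free hf) hB0 hB hT hz⟩

end Pool.Agent.J6H10.GI
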