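import Pool.Agent.J6H10.GI.Z3b
import Pool.Agent.J6H94.GI.PB
import Pool.Agent.J6H88.GI.Osc
import Pool.Agent.J6H88.GI.Sw
import Pool.Agent.J6H76.GI.PHI
import Pool.Agent.J6H64.GI.AV
import Pool.Agent.J6H19.GI.KZ
import Pool.Agent.J6H61.GI.Sinc
import Pool.Agent.J6H11.GI.AB
import Pool.Agent.J6H92.GI.FTc

/-! # Project GI: the main equivalence -/

set_option autoImplicit false

open MeasureTheory Filter Topology Set
open Pool.Agent.H295R2 hiding VV gg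
open Pool.Agent.J6H10.GE (QQ)

namespace Pool.Agent.J6H10.GI

theorem hPB : S_PB := Pool.Agent.J6H94.GI.t_PB
theorem hOSC : S_OSC := Pool.Agent.J6H88.GI.osc hPB
theorem hPHI : S_PHI := Pool.Agent.J6H76.GI.t_PHI hPB hOSC
theorem hSINC : S_SINC := Pool.Agent.J6H61.GI.SINC
theorem hAB : S_AB := Pool.Agent.J6H11.GIAB.ab hSINC hPB
theorem hFT : S_FT := Pool.Agent.J6H92.GI.t_FT hPB hSINC
theorem hSW : S_SW := Pool.Agent.J6H88.GI.sw
theorem hAV : S_AV := Pool.Agent.J6H64.GI.av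
theorem hKZ : S_KZ := Pool.Agent.J6H19.GI.kz

theorem LL_iff_PP {γ : ℝ} (hz : ∀ s : ℂ, 1 / 2 < s.re → Zs s ≠ 0) : Conv LL γ ↔ Conv PP γ := by
  have key : ∀ a : ℝ, 0 < a → ∀ ε : ℝ, 0 < ε → ∃ η T₀ : ℝ, 0 < η ∧
      ∀ δ T : ℝ, T₀ ≤ T → |δ * Real.log T - a| < η → |LL δ T - PP δ T| ≤ ε := by
    intro a ha ε hε
    obtain ⟨η, T₀, hη, h⟩ := Conv_small ha (1296 / ε)
    refine ⟨η, T₀, hη, fun δ T hT hδ => ?_⟩
    obtain ⟨_, h3, h4, h5, h6⟩ := h δ T hT hδ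
    refine (LL_PP hz (by linarith) h4 h6).trans ?_
    rw [← mul_div_assoc, div_le_one hε] at h5
    linarith
  constructor
  · intro h
    refine Conv_congr h fun a ha ε hε => ?_
    obtain ⟨η, T₀, hη, h1⟩ := key a ha ε hε
    refine ⟨η, T₀, hη, fun δ T hT hδ => ?_⟩
    rw [abs_sub_comm]
    exact h1 δ T hT hδ
  · intro h
    exact Conv_congr h key

/-- the chain of equivalences -/
theorem chain {C C' γ : ℝ} (hz : ∀ s : ℂ, 1 / 2 < s.re → Zs s ≠ 0) (hW : Wgt W0 C)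
    (hQ : ∀ T z : ℝ, 2 ≤ T → 1 ≤ z → QQ T z ≤ C' * (1 + Real.log z)) :
    (∀ c : ℝ, 0 < c → Tendsto (fun T : ℝ => QQ T (T ^ c) / Real.log T) atTop (𝓝 (γ * c))) ↔
      Conv (mom W0) (γ / 2) := by
  have h1 := hKZ QQ C' γ (fun T hT => QQ_mono hT) (fun T z hT hz1 => ⟨QQ_nonneg hT hz1, hQ T z hT hz1⟩)
  have h2 : Conv LL γ ↔ Conv PP γ := LL_iff_PP hz
  obtain ⟨K, hK0, hK⟩ := hPHI W0 C hW
  have h3 : Conv PP γ ↔ Conv (Phi W0) γ := hAV (Phi W0) K γ hK0 hK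
  have h4 : Conv (Phi W0) γ ↔ Conv (mom W0) (γ / 2) := by
    have e : 2 * (γ / 2) = γ := by ring
    constructor
    · intro h
      rw [← e] at h
      exact hSW W0 C (γ / 2) hW (hFT W0 C (γ / 2) hW h)
    · intro h
      have := hAB W0 C (γ / 2) hW h
      rwa [e] at this
  exact h1.trans (h2.trans (h3.trans h4))

/-- the two forms of the bound for the mean -/
theorem bound_iff : (∃ C : ℝ, ∀ T z : ℝ, 2 ≤ T → 2 ≤ z → QQ T z / Real.log z ≤ C) ↔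
    ∃ C : ℝ, ∀ T z : ℝ, 2 ≤ T → 1 ≤ z → QQ T z ≤ C * (1 + Real.log z) := by
  have hl2 : 0 < Real.log 2 := Real.log_pos (by norm_num)
  constructor
  · rintro ⟨C, hC⟩
    have hC' : ∀ T z : ℝ, 2 ≤ T → 2 ≤ z → QQ T z ≤ |C| * Real.log z := by
      intro T z hT hz
      have hl : 0 < Real.log z := Real.log_pos (by linarith)
      have h1 := hC T z hT hz
      rw [div_le_iff₀ hl] at h1
      exact h1.trans (mul_le_mul_of_nonneg_right (le_abs_self C) hl.le)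
    refine ⟨|C|, fun T z hT hz => ?_⟩
    have hl : 0 ≤ Real.log z := Real.log_nonneg hz
    have hC0 := abs_nonneg C
    rcases le_total 2 z with h2 | h2
    · have := hC' T z hT h2
      nlinarith
    · have h3 := QQ_mono hT (mem_Ici.2 hz) (mem_Ici.2 (by norm_num : (1 : ℝ) ≤ 2)) h2
      have h4 := hC' T 2 hT le_rfl
      have h5 : Real.log 2 ≤ 1 := by
        have := Real.log_two_lt_d9
        linarith
      calc QQ T z ≤ |C| * Real.log 2 := h3.trans h4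
        _ ≤ |C| * (1 + Real.log z) := mul_le_mul_of_nonneg_left (by linarith) hC0
  · rintro ⟨C, hC⟩
    have hC0 : 0 ≤ C := by
      have h1 := hC 2 1 le_rfl le_rfl
      have h2 := QQ_nonneg (T := 2) le_rfl (le_refl (1 : ℝ))
      rw [Real.log_one] at h1
      linarith
    refine ⟨3 * C, fun T z hT hz => ?_⟩
    have hl : Real.log 2 ≤ Real.log z := Real.log_le_log (by norm_num) hz
    have h5 := Real.log_two_gt_d9
    rw [div_le_iff₀ (by linarith)]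
    refine (hC T z hT (by linarith)).trans ?_
    nlinarith

theorem tendsto_iff {q : ℝ → ℝ} {c γ : ℝ} (hc : 0 < c) :
    Tendsto (fun T : ℝ => q T / Real.log (T ^ c)) atTop (𝓝 γ) ↔
      Tendsto (fun T : ℝ => q T / Real.log T) atTop (𝓝 (γ * c)) := by
  have e : ∀ᶠ T : ℝ in atTop, q T / Real.log (T ^ c) * c = q T / Real.log T := by
    filter_upwards [eventually_gt_atTop 1] with T hT
    rw [Real.log_rpow (by linarith)]
    have : 0 < Real.log T := Real.log_pos hT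
    field_simp
  constructor
  · intro h
    exact (h.mul_const c).congr' e
  · intro h
    have h1 := h.mul_const c⁻¹
    rw [mul_assoc, mul_inv_cancel₀ hc.ne', mul_one] at h1
    refine h1.congr' ?_
    filter_upwards [e] with T hT
    rw [← hT, mul_assoc, mul_inv_cancel₀ hc.ne', mul_one]

/-- the limits are uniform on compact sets -/
theorem Conv_iff {F : ℝ → ℝ → ℝ} {γ : ℝ} : Conv F γ ↔
    ∀ a b : ℝ, 0 < a → a ≤ b → ∀ ε : ℝ, 0 < ε → ∃ T₀ : ℝ, ∀ δ T : ℝ, T₀ ≤ T → a ≤ δ * Real.log T →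
      δ * Real.log T ≤ b → |F δ T - γ| ≤ ε := by
  constructor
  · intro h a b ha hab ε hε
    have h1 : ∀ x : ℝ, ∃ η T₀ : ℝ, 0 < η ∧ (0 < x → ∀ δ T : ℝ, T₀ ≤ T → |δ * Real.log T - x| < η →
        |F δ T - γ| ≤ ε) := by
      intro x
      by_cases hx : 0 < x
      · obtain ⟨η, T₀, hη, h2⟩ := h x hx ε hε
        exact ⟨η, T₀, hη, fun _ => h2⟩
      · exact ⟨1, 0, one_pos, fun h => absurd h hx⟩
    choose η T₀ hη h2 using h1
    obtain ⟨t, ht⟩ := (isCompact_Icc (a := a) (b := b)).elim_nhds_subcover (fun x => Metric.ball x (η x))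
      fun x _ => Metric.ball_mem_nhds x (hη x)
    obtain ⟨B, hB⟩ : ∃ B : ℝ, ∀ x ∈ t, T₀ x ≤ B := by
      obtain ⟨B, hB⟩ := (t.image T₀).bddAbove
      exact ⟨B, fun x hx => hB (by
        rw [Finset.coe_image]
        exact ⟨x, hx, rfl⟩)⟩
    refine ⟨B, fun δ T hT h3 h4 => ?_⟩
    obtain ⟨x, hx, hx2⟩ := mem_iUnion₂.1 (ht.2 (mem_Icc.2 ⟨h3, h4⟩))
    rw [Metric.mem_ball, Real.dist_eq] at hx2
    exact h2 x (lt_of_lt_of_le ha (ht.1 x hx).1) δ T ((hB x hx).trans hT) hx2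
  · intro h a ha ε hε
    obtain ⟨T₀, h1⟩ := h (a / 2) (2 * a) (by positivity) (by linarith) ε hε
    refine ⟨a / 2, T₀, by positivity, fun δ T hT hδ => ?_⟩
    rw [abs_lt] at hδ
    exact h1 δ T hT (by linarith [hδ.1]) (by linarith [hδ.2])

/-- the second moment of `1/ζ` -/
noncomputable def mz (δ T : ℝ) : ℝ :=
  ∫ t in (0 : ℝ)..T, 1 / ‖riemannZeta (((1 / 2 + δ : ℝ) : ℂ) + t * Complex.I)‖ ^ 2

theorem W0_mz {δ T : ℝ} (hδ : 0 < δ) : ∫ t in (0 : ℝ)..T, W0 δ t = δ * mz δ T := by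
  unfold mz
  rw [← intervalIntegral.integral_const_mul]
  refine intervalIntegral.integral_congr_ae ?_
  have h0 : ∀ᵐ t : ℝ, t ≠ 0 := by
    rw [ae_iff]
    have : {t : ℝ | ¬ t ≠ 0} = {0} := by
      ext t
      simp
    rw [this]
    exact Real.volume_singleton
  filter_upwards [h0] with t ht _
  rw [W0_eq ht, abs_of_pos hδ]

theorem mom_mz {δ T : ℝ} (hδ : 0 < δ) : mom W0 δ T = δ / T * mz δ T := by
  unfold mom
  rw [W0_mz hδ]
  ring

theorem Wgt_iff (hz : ∀ s : ℂ, 1 / 2 < s.re → Zs s ≠ 0) : (∃ C : ℝ, Wgt W0 C) ↔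
    ∃ C : ℝ, ∀ δ T : ℝ, 0 < δ → δ ≤ 1 → 1 ≤ T → mz δ T ≤ C * T / δ := by
  constructor
  · rintro ⟨C, h⟩
    refine ⟨C, fun δ T hδ hδ1 hT => ?_⟩
    have h1 := h.bound δ T hδ hδ1 hT
    rw [W0_mz hδ] at h1
    rw [le_div_iff₀ hδ]
    linarith
  · rintro ⟨C, h⟩
    refine ⟨C, fun δ hδ _ => W0_cont hz hδ, W0_nonneg, fun δ T hδ hδ1 hT => ?_⟩
    have h1 := h δ T hδ hδ1 hT
    rw [W0_mz hδ]
    rw [le_div_iff₀ hδ] at h1
    linarith

/-- **the main equivalence** -/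
theorem main (γ : ℝ) :
    ((∃ C : ℝ, ∀ T z : ℝ, 2 ≤ T → 2 ≤ z → QQ T z / Real.log z ≤ C) ∧
      ∀ c : ℝ, 0 < c → Tendsto (fun T : ℝ => QQ T (T ^ c) / Real.log (T ^ c)) atTop (𝓝 γ)) ↔
    (RiemannHypothesis ∧
      (∃ C : ℝ, ∀ δ T : ℝ, 0 < δ → δ ≤ 1 → 1 ≤ T → mz δ T ≤ C * T / δ) ∧
      ∀ a b : ℝ, 0 < a → a ≤ b → ∀ ε : ℝ, 0 < ε → ∃ T₀ : ℝ, ∀ δ T : ℝ, T₀ ≤ T → a ≤ δ * Real.log T →
        δ * Real.log T ≤ b → |δ / T * mz δ T - γ / 2| ≤ ε) := by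
  have key : Conv (mom W0) (γ / 2) ↔
      ∀ a b : ℝ, 0 < a → a ≤ b → ∀ ε : ℝ, 0 < ε → ∃ T₀ : ℝ, ∀ δ T : ℝ, T₀ ≤ T → a ≤ δ * Real.log T →
        δ * Real.log T ≤ b → |δ / T * mz δ T - γ / 2| ≤ ε := by
    rw [Conv_iff]
    have hpos : ∀ {a δ T : ℝ}, 0 < a → 1 ≤ T → a ≤ δ * Real.log T → 0 < δ := by
      intro a δ T ha hT h
      by_contra hc
      have := Real.log_nonneg hT
      nlinarith
    constructor
    · intro h a b ha hab ε hε
      obtain ⟨T₀, h1⟩ := h a b ha hab ε hε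
      refine ⟨max T₀ 1, fun δ T hT h2 h3 => ?_⟩
      rw [← mom_mz (hpos ha ((le_max_right _ _).trans hT) h2)]
      exact h1 δ T ((le_max_left _ _).trans hT) h2 h3
    · intro h a b ha hab ε hε
      obtain ⟨T₀, h1⟩ := h a b ha hab ε hε
      refine ⟨max T₀ 1, fun δ T hT h2 h3 => ?_⟩
      rw [mom_mz (hpos ha ((le_max_right _ _).trans hT) h2)]
      exact h1 δ T ((le_max_left _ _).trans hT) h2 h3
  rw [Pool.Agent.W190.rh_free, ← key, bound_iff]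
  constructor
  · rintro ⟨hb, hc⟩
    obtain ⟨hf, C, hW⟩ := (bounds_iff hPB).1 hb
    have hz := Pool.Agent.J6H10.GC.Zs_free hf
    obtain ⟨C', hQ⟩ := hb
    refine ⟨hf, (Wgt_iff hz).1 ⟨C, hW⟩, (chain hz hW hQ).1 fun c hc0 => ?_⟩
    exact (tendsto_iff hc0).1 (hc c hc0)
  · rintro ⟨hf, hm, hcv⟩
    have hz := Pool.Agent.J6H10.GC.Zs_free hf
    obtain ⟨C, hW⟩ := (Wgt_iff hz).2 hm
    have hb := (bounds_iff hPB).2 ⟨hf, C, hW⟩
    obtain ⟨C', hQ⟩ := hb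
    refine ⟨⟨C', hQ⟩, fun c hc0 => (tendsto_iff hc0).2 ?_⟩
    exact (chain hz hW hQ).2 hcv c hc0

end Pool.Agent.J6H10.GI
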