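import Pool.Agent.J6H10.GI.Z4
import Pool.Agent.J6H84.GI.SQ

/-! # Project GI: the asymptotics of the mean from the conjecture -/

set_option autoImplicit false

open MeasureTheory Filter Topology Set
open Pool.Agent.H448R2.GC (VV)
open Pool.Agent.J6H10.GE (QQ V_ii inv_ii int_div)

namespace Pool.Agent.J6H10.GI

/-- the conjectured asymptotics hold uniformly -/
theorem uniform {P : ℝ → ℝ → ℝ} {γ ε : ℝ} (hε : ε < 1 / 2)
    (h : ∀ H : ℝ → ℝ, (∀ᶠ X : ℝ in atTop, X ^ ε < H X ∧ H X < X ^ (1 - ε)) →
      Tendsto (fun X => P X (H X)) atTop (𝓝 γ)) {e : ℝ} (he : 0 < e) :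
    ∃ X₀ : ℝ, ∀ X H : ℝ, X₀ ≤ X → X ^ ε < H → H < X ^ (1 - ε) → |P X H - γ| ≤ e := by
  classical
  have hc : ∀ X : ℝ, ∃ H : ℝ, (1 < X → X ^ ε < H ∧ H < X ^ (1 - ε)) ∧
      (∀ H' : ℝ, 1 < X → X ^ ε < H' → H' < X ^ (1 - ε) → e < |P X H' - γ| → e < |P X H - γ|) := by
    intro X
    by_cases hb : ∃ H' : ℝ, 1 < X ∧ X ^ ε < H' ∧ H' < X ^ (1 - ε) ∧ e < |P X H' - γ|
    · obtain ⟨H', h1, h2, h3, h4⟩ := hb
      exact ⟨H', fun _ => ⟨h2, h3⟩, fun _ _ _ _ _ => h4⟩
    · refine ⟨X ^ (1 / 2 : ℝ), fun hX => ⟨Real.rpow_lt_rpow_of_exponent_lt hX hε,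
        Real.rpow_lt_rpow_of_exponent_lt hX (by linarith)⟩, fun H' h1 h2 h3 h4 => ?_⟩
      exact absurd ⟨H', h1, h2, h3, h4⟩ hb
  choose H hH1 hH2 using hc
  have h1 := h H ((eventually_gt_atTop 1).mono fun X hX => hH1 X hX)
  obtain ⟨X₀, h2⟩ := (Metric.tendsto_atTop.1 h1) e he
  refine ⟨max X₀ 2, fun X H' hX h3 h4 => ?_⟩
  by_contra hcon
  push Not at hcon
  have h5 := hH2 X H' (by linarith [le_max_right X₀ 2]) h3 h4 hcon
  have h6 := h2 X ((le_max_left _ _).trans hX)
  rw [Real.dist_eq] at h6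
  linarith

theorem ind_ii (D a b z : ℝ) (hz : 1 ≤ z) :
    IntervalIntegrable ((Icc a b).indicator fun X : ℝ => D / X) volume 1 z := by
  rw [intervalIntegrable_iff_integrableOn_Ioc_of_le hz]
  refine Integrable.indicator ?_ measurableSet_Icc
  exact (intervalIntegrable_iff_integrableOn_Ioc_of_le hz).1 (inv_ii one_pos hz)

theorem ind_bd {D a b z : ℝ} (hD : 0 ≤ D) (ha : 0 < a) (hab : a ≤ b) (hz : 1 ≤ z) :
    ∫ X in (1 : ℝ)..z, (Icc a b).indicator (fun X : ℝ => D / X) X ≤ D * (Real.log b - Real.log a) := by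
  rw [intervalIntegral.integral_of_le hz, setIntegral_indicator measurableSet_Icc, ← int_div ha hab,
    intervalIntegral.integral_of_le hab, ← integral_Icc_eq_integral_Ioc]
  refine setIntegral_mono_set ?_ ?_ inter_subset_right.eventuallyLE
  · rw [integrableOn_Icc_iff_integrableOn_Ioc]
    exact (intervalIntegrable_iff_integrableOn_Ioc_of_le hab).1 (inv_ii ha hab)
  · refine (ae_restrict_iff' measurableSet_Icc).2 (Eventually.of_forall fun X hX => ?_)
    have : 0 < X := lt_of_lt_of_le ha hX.1
    show 0 ≤ D / X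
    positivity

/-- the mean from pointwise bounds with two exceptional ranges -/
theorem mean_split {T z N T' D e γ : ℝ} (hT : 2 ≤ T) (hz : 1 ≤ z) (hN : 1 ≤ N) (hT' : T ≤ T') (hD : 0 ≤ D) (he : 0 ≤ e)
    (h1 : ∀ X : ℝ, 1 ≤ X → |VV X (X / T) / (X / T) - γ| ≤ D)
    (h2 : ∀ X : ℝ, N < X → X < T → |VV X (X / T) / (X / T) - γ| ≤ e)
    (h3 : ∀ X : ℝ, N < X → T' < X → X ≤ z → |VV X (X / T) / (X / T) - γ| ≤ e) :
    |QQ T z - γ * Real.log z| ≤ e * Real.log z + D * Real.log N + D * (Real.log T' - Real.log T) := by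
  have hT0 : 0 < T := by linarith
  set f : ℝ → ℝ := fun X => VV X (X / T) / (X / T) / X with hf
  have e1 : QQ T z - γ * Real.log z = ∫ X in (1 : ℝ)..z, (f X - γ / X) := by
    rw [intervalIntegral.integral_sub (V_ii hT hz) (inv_ii one_pos hz), int_div one_pos hz, Real.log_one, sub_zero]
    rfl
  have i1 : IntervalIntegrable (fun X : ℝ => e / X) volume 1 z := inv_ii one_pos hz
  have i2 := ind_ii D 1 N z hz
  have i3 := ind_ii D T T' z hz
  have h4 := intervalIntegral.norm_integral_le_of_norm_le (μ := volume) (f := fun X => f X - γ / X)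
    (g := fun X : ℝ => (e / X + (Icc 1 N).indicator (fun X : ℝ => D / X) X) +
      (Icc T T').indicator (fun X : ℝ => D / X) X) hz (Eventually.of_forall fun X hX => ?_) ((i1.add i2).add i3)
  · rw [intervalIntegral.integral_add (i1.add i2) i3, intervalIntegral.integral_add i1 i2, int_div one_pos hz,
      Real.log_one, sub_zero] at h4
    rw [e1, ← Real.norm_eq_abs]
    have h5 := ind_bd (z := z) hD one_pos hN hz
    have h6 := ind_bd (z := z) hD hT0 hT' hz
    rw [Real.log_one, sub_zero] at h5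
    linarith
  · have hX0 : 0 < X := by linarith [hX.1]
    have e2 : f X - γ / X = (VV X (X / T) / (X / T) - γ) / X := by rw [hf]; ring
    rw [e2, Real.norm_eq_abs, abs_div, abs_of_pos hX0]
    have p0 : 0 ≤ e / X := by positivity
    have p1 : 0 ≤ (Icc 1 N).indicator (fun X : ℝ => D / X) X := by
      by_cases h : X ∈ Icc 1 N
      · rw [indicator_of_mem h]; positivity
      · rw [indicator_of_notMem h]
    have p2 : 0 ≤ (Icc T T').indicator (fun X : ℝ => D / X) X := by
      by_cases h : X ∈ Icc T T'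
      · rw [indicator_of_mem h]; positivity
      · rw [indicator_of_notMem h]
    have hD' : |VV X (X / T) / (X / T) - γ| / X ≤ D / X :=
      div_le_div_of_nonneg_right (h1 X hX.1.le) hX0.le
    rcases le_or_gt X N with hXN | hXN
    · rw [indicator_of_mem (show X ∈ Icc 1 N from ⟨hX.1.le, hXN⟩)]
      linarith
    rcases lt_or_ge X T with hXT | hXT
    · have := div_le_div_of_nonneg_right (h2 X hXN hXT) hX0.le
      linarith
    rcases le_or_gt X T' with hXT' | hXT'
    · rw [indicator_of_mem (show X ∈ Icc T T' from ⟨hXT, hXT'⟩)]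
      linarith
    · have := div_le_div_of_nonneg_right (h3 X hXN hXT' hX.2) hX0.le
      linarith

theorem VV_nonneg' {X H : ℝ} (hX : 0 < X) : 0 ≤ VV X H := by
  have h : VV X H = (1 / X) * ∫ x in X..2 * X, M x H ^ 2 := rfl
  rw [h]
  have h1 : 0 ≤ ∫ x in X..2 * X, M x H ^ 2 :=
    intervalIntegral.integral_nonneg (by linarith) fun x _ => sq_nonneg _
  positivity

/-- **the asymptotics of the mean from the conjecture** -/
theorem of_conj {C : ℝ} (hC : ∀ X H : ℝ, 1 ≤ X → 0 < H → H ≤ X / 2 → V X H ≤ C * H)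
    (hQ : ∀ ε : ℝ, 0 < ε → ∀ H : ℝ → ℝ, (∀ᶠ X : ℝ in atTop, X ^ ε < H X ∧ H X < X ^ (1 - ε)) →
      Tendsto (fun X => V X (H X) / H X) atTop (𝓝 (6 / Real.pi ^ 2))) :
    (∃ C : ℝ, ∀ T z : ℝ, 2 ≤ T → 2 ≤ z → QQ T z / Real.log z ≤ C) ∧
      ∀ c : ℝ, 0 < c → Tendsto (fun T : ℝ => QQ T (T ^ c) / Real.log (T ^ c)) atTop (𝓝 (6 / Real.pi ^ 2)) := by
  have hVV : ∀ X H, V X H = VV X H := fun X H => rfl
  have hpi := Real.pi_pos
  set γ : ℝ := 6 / Real.pi ^ 2 with hγ
  have hγ0 : 0 < γ := by positivity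
  have hf : ∀ T X : ℝ, 2 ≤ T → 1 ≤ X → 0 ≤ VV X (X / T) / (X / T) ∧ VV X (X / T) / (X / T) ≤ C := by
    intro T X hT hX
    have hT0 : 0 < T := by linarith
    have hX0 : 0 < X := by linarith
    have h1 := hC X (X / T) hX (by positivity) (div_le_div_of_nonneg_left hX0.le (by norm_num) hT)
    rw [hVV] at h1
    have h2 := VV_nonneg' (H := X / T) hX0
    refine ⟨by positivity, ?_⟩
    rw [div_le_iff₀ (by positivity)]
    exact h1
  have hC0 : 0 ≤ C := (hf 2 1 le_rfl le_rfl).1.trans (hf 2 1 le_rfl le_rfl).2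
  constructor
  · refine ⟨C, fun T z hT hz => ?_⟩
    have hl : 0 < Real.log z := Real.log_pos (by linarith)
    have hz1 : 1 ≤ z := by linarith
    rw [div_le_iff₀ hl]
    have h1 : QQ T z ≤ ∫ X in (1 : ℝ)..z, C / X := by
      refine intervalIntegral.integral_mono_on hz1 (V_ii hT hz1) (inv_ii one_pos hz1) fun X hX => ?_
      have hX0 : 0 < X := by linarith [hX.1]
      exact div_le_div_of_nonneg_right (hf T X hT hX.1).2 hX0.le
    rwa [int_div one_pos hz1, Real.log_one, sub_zero] at h1
  · intro c hc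
    rw [Metric.tendsto_atTop]
    intro e' he'
    set D : ℝ := C + γ with hD
    have hD0 : 0 < D := by positivity
    have hfD : ∀ T X : ℝ, 2 ≤ T → 1 ≤ X → |VV X (X / T) / (X / T) - γ| ≤ D := by
      intro T X hT hX
      obtain ⟨h1, h2⟩ := hf T X hT hX
      rw [abs_le]
      constructor <;> linarith
    set e : ℝ := e' / 4 with he
    have he0 : 0 < e := by positivity
    set ε' : ℝ := c * e / D with hε'
    have hε'0 : 0 < ε' := by positivity
    set ε : ℝ := min (min (ε' / (1 + ε')) (1 / (2 * c))) (1 / 4) with hε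
    have hε0 : 0 < ε := lt_min (lt_min (by positivity) (by positivity)) (by norm_num)
    have hε1 : ε ≤ ε' / (1 + ε') := (min_le_left _ _).trans (min_le_left _ _)
    have hε2 : ε ≤ 1 / (2 * c) := (min_le_left _ _).trans (min_le_right _ _)
    have hε3 : ε ≤ 1 / 4 := min_le_right _ _
    obtain ⟨X₁, hX₁⟩ := Pool.Agent.J6H84.GI.t_SQ e he0
    obtain ⟨X₂, hX₂⟩ := uniform (P := fun X H => V X H / H) (γ := γ) (ε := ε) (by linarith) (hQ ε hε0) he0
    set N : ℝ := max (max X₁ X₂) 1 with hN
    have hN1 : 1 ≤ N := le_max_right _ _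
    have hN2 : X₁ ≤ N := (le_max_left _ _).trans (le_max_left _ _)
    have hN3 : X₂ ≤ N := (le_max_right _ _).trans (le_max_left _ _)
    have hlN : 0 ≤ Real.log N := Real.log_nonneg hN1
    refine ⟨max 2 (Real.exp (D * Real.log N / (c * e) + 1)), fun T hT => ?_⟩
    have hT2 : 2 ≤ T := (le_max_left _ _).trans hT
    have hT0 : 0 < T := by linarith
    have hT1 : 1 ≤ T := by linarith
    have hlT : D * Real.log N / (c * e) + 1 ≤ Real.log T := by
      rw [Real.le_log_iff_exp_le hT0]
      exact (le_max_right _ _).trans hT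
    have hlT0 : 0 < Real.log T := by
      have : 0 ≤ D * Real.log N / (c * e) := by positivity
      linarith
    have hz1 : 1 ≤ T ^ c := Real.one_le_rpow hT1 hc.le
    have hlz : Real.log (T ^ c) = c * Real.log T := Real.log_rpow hT0 c
    have hlz0 : 0 < c * Real.log T := by positivity
    have hTT' : T ≤ T ^ (1 + ε') := by
      calc T = T ^ (1 : ℝ) := (Real.rpow_one T).symm
        _ ≤ T ^ (1 + ε') := Real.rpow_le_rpow_of_exponent_le hT1 (by linarith)
    have key := mean_split (T := T) (z := T ^ c) (N := N) (T' := T ^ (1 + ε')) (D := D) (e := e) (γ := γ) hT2 hz1 hN1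
      hTT' hD0.le he0.le (fun X hX => hfD T X hT2 hX) ?_ ?_
    · rw [hlz, Real.log_rpow hT0 (1 + ε')] at key
      rw [Real.dist_eq, hlz]
      have e2 : QQ T (T ^ c) / (c * Real.log T) - γ = (QQ T (T ^ c) - γ * (c * Real.log T)) / (c * Real.log T) := by
        field_simp
      rw [e2, abs_div, abs_of_pos hlz0, div_lt_iff₀ hlz0]
      have h5 : D * Real.log N ≤ e * (c * Real.log T) := by
        have h6 : D * Real.log N / (c * e) ≤ Real.log T := by linarith
        rw [div_le_iff₀ (by positivity)] at h6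
        linarith
      have h6 : D * ((1 + ε') * Real.log T - Real.log T) = e * (c * Real.log T) := by
        rw [hε']
        field_simp
        ring
      have h7 : e' * (c * Real.log T) = 4 * (e * (c * Real.log T)) := by rw [he]; ring
      have h8 : 0 < e * (c * Real.log T) := by positivity
      rw [h7]
      linarith
    · intro X h1 h2
      have hX0 : 0 < X := by linarith
      have := hX₁ X (by linarith) (X / T) (by positivity) (by
        rw [div_le_one hT0]
        exact h2.le)
      rwa [hVV] at this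
    · intro X h1 h2 h3
      have hX1 : 1 < X := by linarith
      have hX0 : 0 < X := by linarith
      have hlX : 0 < Real.log X := Real.log_pos hX1
      have a1 : (1 + ε') * Real.log T < Real.log X := by
        rw [← Real.log_rpow hT0]
        exact Real.log_lt_log (by positivity) h2
      have a2 : Real.log X ≤ c * Real.log T := by
        rw [← hlz]
        exact Real.log_le_log hX0 h3
      have a3 : ε * Real.log X < Real.log X - Real.log T := by
        have b1 : ε * (1 + ε') ≤ ε' := by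
          rwa [le_div_iff₀ (by positivity)] at hε1
        have b2 : Real.log T < Real.log X / (1 + ε') := by
          rw [lt_div_iff₀ (by positivity)]
          linarith
        have b3 : ε * Real.log X ≤ Real.log X - Real.log X / (1 + ε') := by
          have b4 : Real.log X - Real.log X / (1 + ε') = ε' / (1 + ε') * Real.log X := by
            field_simp
            ring
          rw [b4]
          exact mul_le_mul_of_nonneg_right hε1 hlX.le
        linarith
      have a4 : ε * Real.log X < Real.log T := by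
        have b1 : ε * Real.log X ≤ 1 / (2 * c) * (c * Real.log T) :=
          mul_le_mul hε2 a2 hlX.le (by positivity)
        have b2 : 1 / (2 * c) * (c * Real.log T) = Real.log T / 2 := by
          field_simp
        linarith
      refine hX₂ X (X / T) (by linarith) ?_ ?_
      · rw [← Real.log_lt_log_iff (by positivity) (by positivity), Real.log_rpow hX0, Real.log_div hX0.ne' hT0.ne']
        exact a3
      · rw [← Real.log_lt_log_iff (by positivity) (by positivity), Real.log_rpow hX0, Real.log_div hX0.ne' hT0.ne']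
        linarith

end Pool.Agent.J6H10.GI
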